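import Mathlib

set_option autoImplicit false

/-!
# CI (helper89): the sieve inequality of order three

`R P c` is a relation between points `P` and parameters `c`. If the events `R P` are independent of
probability `1 / Q` for any three different points, and if there are at most `3 Q / 2` points, then at
most `24 / 25` of the parameters are related to some point.
-/

namespace Pool.Agent.N89.CI

open Finset

theorem bonf_real (x : ℕ) (hx : 1 ≤ x) :
    (1 : ℝ) ≤ x - x * (x - 1) / 2 + x * (x - 1) * (x - 2) / 6 := by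
  have h : (0 : ℝ) ≤ (x - 1) * (x - 2) * (x - 3) := by
    rcases Nat.lt_or_ge x 4 with h | h
    · interval_cases x <;> norm_num
    · have h4 : (4 : ℝ) ≤ x := by exact_mod_cast h
      have h1 : (0 : ℝ) ≤ x - 1 := by linarith
      have h2 : (0 : ℝ) ≤ x - 2 := by linarith
      have h3 : (0 : ℝ) ≤ x - 3 := by linarith
      positivity
  nlinarith

theorem desc_one (x : ℕ) : ((x.descFactorial 1 : ℕ) : ℝ) = x := by
  simp [Nat.descFactorial]

theorem desc_two (x : ℕ) : ((x.descFactorial 2 : ℕ) : ℝ) = x * (x - 1) := by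
  rcases x with _ | x
  · simp [Nat.descFactorial]
  · simp only [Nat.descFactorial]
    push_cast
    ring

theorem desc_three (x : ℕ) : ((x.descFactorial 3 : ℕ) : ℝ) = x * (x - 1) * (x - 2) := by
  rcases x with _ | x
  · simp [Nat.descFactorial]
  rcases x with _ | x
  · simp [Nat.descFactorial]
  · simp only [Nat.descFactorial]
    push_cast
    ring

theorem sum_desc {Pt C : Type} [Fintype Pt] [Fintype C] (R : Pt → C → Prop) (j : ℕ) :
    ∑ c : C, (Nat.card {P // R P c}).descFactorial j =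
      ∑ f : Fin j ↪ Pt, Nat.card {c // ∀ i, R (f i) c} := by
  classical
  have h1 : ∀ c : C, (Nat.card {P // R P c}).descFactorial j =
      Nat.card (Fin j ↪ {P // R P c}) := by
    intro c
    rw [Nat.card_eq_fintype_card, Nat.card_eq_fintype_card, Fintype.card_embedding_eq,
      Fintype.card_fin]
  rw [Finset.sum_congr rfl fun c _ => h1 c]
  rw [← Nat.card_sigma, ← Nat.card_sigma]
  refine Nat.card_congr ?_
  refine ⟨fun x => ⟨x.2.trans (Function.Embedding.subtype _), ⟨x.1, fun i => (x.2 i).2⟩⟩,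
    fun y => ⟨y.2.1, ⟨fun i => ⟨y.1 i, y.2.2 i⟩, fun i i' h => y.1.injective (by
      simpa using h)⟩⟩, ?_, ?_⟩
  · rintro ⟨c, f⟩
    rfl
  · rintro ⟨f, c, hc⟩
    rfl

theorem bonf {Pt C : Type} [Fintype Pt] [Fintype C] (R : Pt → C → Prop) (Q : ℝ) (hQ : 37 ≤ Q)
    (hm : (Nat.card Pt : ℝ) ≤ 3 / 2 * Q)
    (h : ∀ j : ℕ, 1 ≤ j → j ≤ 3 → ∀ f : Fin j ↪ Pt,
      (Nat.card {c // ∀ i, R (f i) c} : ℝ) * Q ^ j = Nat.card C) :
    (({c : C | ∃ P, R P c}.ncard : ℕ) : ℝ) ≤ (1 - 1 / 25) * Nat.card C := by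
  classical
  have hQ0 : 0 < Q := by linarith
  set m : ℝ := ((Nat.card Pt : ℕ) : ℝ) with hmdef
  have hm0 : 0 ≤ m := Nat.cast_nonneg _
  set N : C → ℕ := fun c => Nat.card {P // R P c} with hN
  have hsum : ∀ j : ℕ, 1 ≤ j → j ≤ 3 → (∑ c : C, ((N c).descFactorial j : ℝ)) * Q ^ j =
      ((Nat.card Pt).descFactorial j : ℝ) * Nat.card C := by
    intro j hj1 hj3
    have h1 := sum_desc R j
    have h2 : (∑ c : C, ((N c).descFactorial j : ℝ)) =
        ∑ f : Fin j ↪ Pt, (Nat.card {c // ∀ i, R (f i) c} : ℝ) := by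
      exact_mod_cast h1
    rw [h2, Finset.sum_mul, Finset.sum_congr rfl fun f _ => h j hj1 hj3 f, Finset.sum_const,
      nsmul_eq_mul, Finset.card_univ, Fintype.card_embedding_eq, Fintype.card_fin,
      Nat.card_eq_fintype_card (α := Pt)]
  have h1 := hsum 1 le_rfl (by norm_num)
  have h2 := hsum 2 (by norm_num) (by norm_num)
  have h3 := hsum 3 (by norm_num) le_rfl
  simp only [desc_one, desc_two, desc_three] at h1 h2 h3
  rw [← hmdef] at h1 h2 h3
  set K : ℝ := ((Nat.card C : ℕ) : ℝ) with hK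
  have hK0 : 0 ≤ K := Nat.cast_nonneg _
  set S1 : ℝ := ∑ c : C, (N c : ℝ) with hS1
  set S2 : ℝ := ∑ c : C, (N c : ℝ) * ((N c : ℝ) - 1) with hS2
  set S3 : ℝ := ∑ c : C, (N c : ℝ) * ((N c : ℝ) - 1) * ((N c : ℝ) - 2) with hS3
  -- upper bound by the sums
  have hub : (({c : C | ∃ P, R P c}.ncard : ℕ) : ℝ) ≤ S1 - S2 / 2 + S3 / 6 := by
    have h4 : ({c : C | ∃ P, R P c}.ncard : ℝ) = ∑ c : C, if ∃ P, R P c then (1 : ℝ) else 0 := by
      rw [Set.ncard_eq_toFinset_card', Finset.sum_boole]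
      congr 2
      ext c
      simp
    rw [h4, hS1, hS2, hS3, Finset.sum_div, Finset.sum_div, ← Finset.sum_sub_distrib,
      ← Finset.sum_add_distrib]
    refine Finset.sum_le_sum fun c _ => ?_
    split_ifs with hc
    · have hN1 : 1 ≤ N c := by
        obtain ⟨P, hP⟩ := hc
        have : Nonempty {P // R P c} := ⟨⟨P, hP⟩⟩
        exact Nat.card_pos
      exact bonf_real (N c) hN1
    · have hN0 : N c = 0 := by
        have : IsEmpty {P // R P c} := ⟨fun x => hc ⟨x.1, x.2⟩⟩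
        exact Nat.card_of_isEmpty
      rw [hN0]
      norm_num
  refine hub.trans ?_
  -- numerics
  set x : ℝ := m / Q with hx
  have hx0 : 0 ≤ x := div_nonneg hm0 hQ0.le
  have hx1 : x ≤ 3 / 2 := by
    rw [hx, div_le_iff₀ hQ0]
    exact hm
  have hmx : m = x * Q := by
    rw [hx]
    field_simp
  have e1 : S1 = x * K := by
    have : S1 * Q = x * K * Q := by
      rw [pow_one] at h1
      rw [h1, hmx]
      ring
    exact mul_right_cancel₀ hQ0.ne' this
  have e2 : S2 = (x ^ 2 - x / Q) * K := by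
    have h5 : S2 * Q ^ 2 = (x ^ 2 - x / Q) * K * Q ^ 2 := by
      rw [h2, hmx]
      field_simp
    exact mul_right_cancel₀ (pow_pos hQ0 2).ne' h5
  have e3 : S3 = (x ^ 3 - 3 * x ^ 2 / Q + 2 * x / Q ^ 2) * K := by
    have h5 : S3 * Q ^ 3 = (x ^ 3 - 3 * x ^ 2 / Q + 2 * x / Q ^ 2) * K * Q ^ 3 := by
      rw [h3, hmx]
      field_simp
      ring
    exact mul_right_cancel₀ (pow_pos hQ0 3).ne' h5
  rw [e1, e2, e3]
  have key : x - (x ^ 2 - x / Q) / 2 + (x ^ 3 - 3 * x ^ 2 / Q + 2 * x / Q ^ 2) / 6 ≤ 1 - 1 / 25 := by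
    set y : ℝ := 1 / Q with hy
    have hy0 : 0 ≤ y := by positivity
    have hy1 : y ≤ 1 / 37 := by
      rw [hy]
      exact one_div_le_one_div_of_le (by norm_num) hQ
    have e4 : x / Q = x * y := by rw [hy]; ring
    have e5 : 3 * x ^ 2 / Q = 3 * x ^ 2 * y := by rw [hy]; ring
    have e6 : 2 * x / Q ^ 2 = 2 * x * y ^ 2 := by rw [hy]; field_simp
    rw [e4, e5, e6]
    have g1 : x - x ^ 2 / 2 + x ^ 3 / 6 ≤ 15 / 16 := by
      nlinarith [mul_nonneg (sub_nonneg.2 hx1) (sq_nonneg (x - 3 / 4)),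
        mul_nonneg (sub_nonneg.2 hx1) (sq_nonneg x), sub_nonneg.2 hx1]
    have g2 : x * y ≤ 3 / 2 * (1 / 37) := mul_le_mul hx1 hy1 hy0 (by norm_num)
    have g3 : 2 * x * y ^ 2 ≤ 2 * x * y * (1 / 37) := by
      have : 2 * x * y ^ 2 = 2 * x * y * y := by ring
      rw [this]
      exact mul_le_mul_of_nonneg_left hy1 (by positivity)
    have g4 : 0 ≤ 3 * x ^ 2 * y := by positivity
    nlinarith
  have h9 := mul_le_mul_of_nonneg_right key hK0
  nlinarith [h9]

end Pool.Agent.N89.CI
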