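import Pool.Agent.N89.CI.Forms
import Pool.Agent.N89.CI.Bonf

set_option autoImplicit false

/-!
# CI (helper89): density of the complete intersections with a point over a finite field
-/

namespace Pool.Agent.N89.CI

open Finset MvPolynomial

open scoped LinearAlgebra.Projectivization

theorem form_smul {k : Type} [CommRing k] {r κ m : ℕ} {d : Fin κ → Fin r → ℕ} {e : Fin κ → ℕ}
    (c : Idx m d e → k) (j : Fin κ) (V : Fin r → Fin 3 → k) (T : Fin (m + 1) → k) (u : k) :
    form c j V (u • T) = u ^ e j * form c j V T := by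
  unfold form
  rw [Finset.mul_sum]
  refine Finset.sum_congr rfl fun s _ => ?_
  have h1 : ∏ x, (u • T) x ^ s.1.1 x = u ^ (∑ x, s.1.1 x) * ∏ x, T x ^ s.1.1 x := by
    rw [← Finset.prod_pow_eq_pow_sum, ← Finset.prod_mul_distrib]
    refine Finset.prod_congr rfl fun x _ => ?_
    rw [Pi.smul_apply, smul_eq_mul, mul_pow]
  rw [h1, sum_monT]
  ring

/-- **Density.** The family `Θ` of points of `ℙᵐ(k)` has at most `3/2 |k|^κ` elements; then at most
`24/25` of the complete intersections of `κ` hypersurfaces of degrees at least `2` contain a point of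
the family. -/
theorem density {k : Type} [Field k] [Fintype k] {r κ m : ℕ} (d : Fin κ → Fin r → ℕ)
    (e : Fin κ → ℕ) (he : ∀ j, 2 ≤ e j) (hκ : 1 ≤ κ) (hk : 37 ≤ Nat.card k)
    (V : Fin r → Fin 3 → k) (hV : ∀ i, V i ≠ 0) (Θ : (Fin (m + 1) → k) → Prop)
    (hΘ : ∀ (T : Fin (m + 1) → k) (u : k), u ≠ 0 → Θ T → Θ (u • T))
    (hcard : (({P : ℙ k (Fin (m + 1) → k) | Θ P.rep}.ncard : ℕ) : ℝ) ≤
      3 / 2 * (Nat.card k : ℝ) ^ κ) :
    (({c : Idx m d e → k | ∃ T : Fin (m + 1) → k, T ≠ 0 ∧ Θ T ∧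
      ∀ j, form c j V T = 0}.ncard : ℕ) : ℝ) ≤
      (1 - 1 / 25) * (Nat.card k : ℝ) ^ Fintype.card (Idx m d e) := by
  classical
  have : Finite (ℙ k (Fin (m + 1) → k)) := by
    unfold Projectivization
    infer_instance
  let _ : Fintype {P : ℙ k (Fin (m + 1) → k) // Θ P.rep} := Fintype.ofFinite _
  have h1 : ({c : Idx m d e → k | ∃ T : Fin (m + 1) → k, T ≠ 0 ∧ Θ T ∧
      ∀ j, form c j V T = 0}) =
      {c : Idx m d e → k | ∃ P : {P : ℙ k (Fin (m + 1) → k) // Θ P.rep},
        ∀ j, form c j V P.1.rep = 0} := by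
    ext c
    constructor
    · rintro ⟨T, hT, hΘT, hc⟩
      obtain ⟨u, hu⟩ := Projectivization.exists_smul_eq_mk_rep k T hT
      have hu' : (u : k) • T = (Projectivization.mk k T hT).rep := hu
      refine ⟨⟨Projectivization.mk k T hT, ?_⟩, fun j => ?_⟩
      · rw [← hu']
        exact hΘ T u u.ne_zero hΘT
      · simp only
        rw [← hu', form_smul, hc j, mul_zero]
    · rintro ⟨P, hP⟩
      exact ⟨P.1.rep, P.1.rep_nonzero, P.2, hP⟩
  rw [h1]
  have hQ : (37 : ℝ) ≤ (Nat.card k : ℝ) ^ κ := by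
    have h2 : (37 : ℝ) ≤ Nat.card k := by exact_mod_cast hk
    have h3 : (1 : ℝ) ≤ Nat.card k := by linarith
    calc (37 : ℝ) ≤ (Nat.card k : ℝ) ^ 1 := by rw [pow_one]; exact h2
      _ ≤ (Nat.card k : ℝ) ^ κ := pow_le_pow_right₀ h3 hκ
  have h2 := bonf (Pt := {P : ℙ k (Fin (m + 1) → k) // Θ P.rep}) (C := Idx m d e → k)
    (fun P c => ∀ j, form c j V P.1.rep = 0) ((Nat.card k : ℝ) ^ κ) hQ hcard (by
      intro n hn1 hn3 f
      have h4 := card_vanish d e V hV (fun i => (f i).1.rep) (fun i => (f i).1.rep_nonzero) (by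
        intro i i' hii' u hu
        apply hii'
        apply f.injective
        apply Subtype.ext
        have h5 : u • (f i).1.rep = (f i').1.rep := hu.symm
        rw [← Projectivization.mk_rep (f i).1, ← Projectivization.mk_rep (f i').1]
        symm
        rw [Projectivization.mk_eq_mk_iff']
        exact ⟨u, h5⟩) (fun j => by have := he j; omega)
      rw [← pow_mul, mul_comm κ n]
      exact_mod_cast h4)
  refine h2.trans (le_of_eq ?_)
  congr 1
  rw [Nat.card_fun, Nat.card_eq_fintype_card (α := Idx m d e)]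
  push_cast
  rfl

theorem density_fun {k : Type} [Field k] [Fintype k] {m κ : ℕ} (hk : 3 ≤ Nat.card k)
    (hm : m = κ) :
    (Nat.card (ℙ k (Fin (m + 1) → k)) : ℝ) ≤ 3 / 2 * (Nat.card k : ℝ) ^ κ := by
  subst hm
  have : Finite (Fin (m + 1) → k) := inferInstance
  have h1 := Projectivization.card' k (Fin (m + 1) → k)
  rw [Nat.card_fun, Nat.card_eq_fintype_card (α := Fin (m + 1)), Fintype.card_fin] at h1
  set q := Nat.card k with hq
  set N := Nat.card (ℙ k (Fin (m + 1) → k)) with hN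
  have h2 : (q : ℝ) ^ (m + 1) = N * (q - 1) + 1 := by
    have h3 : ((q ^ (m + 1) : ℕ) : ℝ) = ((N * (q - 1) + 1 : ℕ) : ℝ) := by rw [h1]
    rw [Nat.cast_pow, Nat.cast_add, Nat.cast_mul, Nat.cast_sub (by omega)] at h3
    simpa using h3
  have hq3 : (3 : ℝ) ≤ q := by exact_mod_cast hk
  have h4 : (N : ℝ) * (q - 1) ≤ 3 / 2 * (q : ℝ) ^ m * (q - 1) := by
    have h5 : (q : ℝ) ^ (m + 1) = q ^ m * q := pow_succ _ _
    have h6 : (0 : ℝ) ≤ q ^ m := by positivity
    nlinarith
  exact le_of_mul_le_mul_right h4 (by linarith)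

end Pool.Agent.N89.CI
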