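import Pool.Agent.N89.CI.Geo

set_option autoImplicit false

/-!
# CI (helper89): the general complete intersection as a family of polynomials
-/

namespace Pool.Agent.N89.CI

open Finset MvPolynomial

/-- polynomials in the coordinates `V i j` and `T x` -/
abbrev Pol0 (R : Type) [CommRing R] (r m : ℕ) : Type :=
  MvPolynomial ((Fin r × Fin 3) ⊕ Fin (m + 1)) R

/-- the value at `V, T` -/
noncomputable def val0 {R A : Type} [CommRing R] [CommRing A] (φ : R →+* A) {r m : ℕ}
    (F : Pol0 R r m) (V : Fin r → Fin 3 → A) (T : Fin (m + 1) → A) : A :=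
  eval₂ φ (Sum.elim (fun ij => V ij.1 ij.2) T) F

/-- multihomogeneous of degree `d i` in the coordinates of the `i`-th curve and of degree `e` in
`T` -/
def MHomog0 {R : Type} [CommRing R] {r m : ℕ} (F : Pol0 R r m) (d : Fin r → ℕ) (e : ℕ) : Prop :=
  ∀ x ∈ F.support, (∀ i, ∑ j, x (Sum.inl (i, j)) = d i) ∧ ∑ s, x (Sum.inr s) = e

section
variable {R A : Type} [CommRing R] [CommRing A] {r m : ℕ} {ι : Type}

/-- a polynomial without parameters as a polynomial with parameters -/
noncomputable def lift0 (ι : Type) (F : Pol0 R r m) : Pol R r m ι :=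
  rename (Sum.map id Sum.inl) F

theorem valP_lift0 (φ : R →+* A) (F : Pol0 R r m) (V : Fin r → Fin 3 → A)
    (T : Fin (m + 1) → A) (t : ι → A) : valP φ (lift0 ι F) V T t = val0 φ F V T := by
  unfold valP lift0 val0
  rw [eval₂_rename]
  congr 1
  funext x
  rcases x with x | x <;> rfl

theorem mhomog_lift0 (F : Pol0 R r m) (d : Fin r → ℕ) (e : ℕ) (hF : MHomog0 F d e) :
    MHomog (lift0 ι F) d e := by
  intro x hx
  obtain ⟨y, hy1, hy2⟩ := coeff_rename_ne_zero _ _ _ (mem_support_iff.1 hx)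
  have hinj : Function.Injective (Sum.map id Sum.inl :
      (Fin r × Fin 3) ⊕ Fin (m + 1) → (Fin r × Fin 3) ⊕ (Fin (m + 1) ⊕ ι)) :=
    Function.injective_id.sumMap Sum.inl_injective
  have h1 := hF y (mem_support_iff.2 hy2)
  have h2 : ∀ z, x (Sum.map id Sum.inl z) = y z := by
    intro z
    rw [← hy1]
    exact Finsupp.mapDomain_apply hinj y z
  constructor
  · intro i
    rw [← h1.1 i]
    exact Finset.sum_congr rfl fun j _ => h2 (Sum.inl (i, j))
  · rw [← h1.2]
    exact Finset.sum_congr rfl fun j _ => h2 (Sum.inr j)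

/-- the exponents of a monomial of the general form -/
noncomputable def expo {κ : ℕ} {d : Fin κ → Fin r → ℕ} {e : Fin κ → ℕ} (j : Fin κ)
    (s : MonT m (e j) × MonV (d j)) :
    ((Fin r × Fin 3) ⊕ (Fin (m + 1) ⊕ Idx m d e)) →₀ ℕ :=
  Finsupp.equivFunOnFinite.symm (Sum.elim (fun ix => (s.2 ix.1).1 ix.2)
    (Sum.elim s.1.1 (Pi.single (⟨j, s⟩ : Idx m d e) 1)))

/-- the general form number `j` -/
noncomputable def gen (R : Type) [CommRing R] {κ : ℕ} (m : ℕ) (d : Fin κ → Fin r → ℕ)
    (e : Fin κ → ℕ) (j : Fin κ) : Pol R r m (Idx m d e) :=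
  ∑ s : MonT m (e j) × MonV (d j), monomial (expo j s) 1

theorem valP_gen (φ : R →+* A) {κ : ℕ} (d : Fin κ → Fin r → ℕ)
    (e : Fin κ → ℕ) (j : Fin κ) (V : Fin r → Fin 3 → A)
    (T : Fin (m + 1) → A) (c : Idx m d e → A) : valP φ (gen R m d e j) V T c = form c j V T := by
  unfold valP gen form
  rw [eval₂_sum]
  refine Finset.sum_congr rfl fun s _ => ?_
  rw [eval₂_monomial, map_one, one_mul, Finsupp.prod_fintype _ _ (fun _ => pow_zero _),
    Fintype.prod_sum_type, Fintype.prod_sum_type, Fintype.prod_prod_type]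
  have h1 : ∏ x : Idx m d e, Sum.elim (fun ij : Fin r × Fin 3 => V ij.1 ij.2) (Sum.elim T c)
      (Sum.inr (Sum.inr x)) ^ (expo (m := m) (d := d) (e := e) j s) (Sum.inr (Sum.inr x)) =
      c ⟨j, s⟩ := by
    rw [Finset.prod_eq_single (⟨j, s⟩ : Idx m d e)]
    · simp [expo]
    · intro x _ hx
      simp [expo, Pi.single_eq_of_ne hx]
    · intro h
      exact absurd (mem_univ _) h
  rw [h1]
  simp only [expo, Sum.elim_inl, Sum.elim_inr, Finsupp.equivFunOnFinite_symm_apply_apply]
  ring

theorem mhomog_gen {κ : ℕ} (d : Fin κ → Fin r → ℕ) (e : Fin κ → ℕ) (j : Fin κ) :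
    MHomog (gen R m d e j) (d j) (e j) := by
  classical
  intro x hx
  unfold gen at hx
  have h1 := support_sum hx
  rw [Finset.mem_biUnion] at h1
  obtain ⟨s, _, hs⟩ := h1
  have h2 := support_monomial_subset hs
  rw [Finset.mem_singleton] at h2
  subst h2
  constructor
  · intro i
    have h3 := (s.2 i).2
    rw [Finset.mem_piAntidiag] at h3
    simpa [expo] using h3.1
  · have h3 := s.1.2
    rw [Finset.mem_piAntidiag] at h3
    simpa [expo] using h3.1

theorem val0_smul (φ : R →+* A) (F : Pol0 R r m) (d : Fin r → ℕ) (e : ℕ) (hF : MHomog0 F d e)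
    (V : Fin r → Fin 3 → A) (T : Fin (m + 1) → A) (u : A) :
    val0 φ F V (u • T) = u ^ e * val0 φ F V T := by
  have h := valP_scale φ (lift0 Empty F) d e (mhomog_lift0 F d e hF) V T (fun x => x.elim) 1 u
  simp only [Pi.one_apply, one_mul, one_pow, Finset.prod_const_one] at h
  rw [valP_lift0, valP_lift0] at h
  exact h

end

end Pool.Agent.N89.CI
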