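import Pool.Agent.N89.CI.MainQ
import Pool.Agent.N89.CI.Poly
import Pool.Agent.N89.CI.Dens

set_option autoImplicit false

/-!
# CI (helper89): almost all complete intersections in a projective family over a product of CM
elliptic curves have no rational point
-/

namespace Pool.Agent.N89.CI

open MvPolynomial

open scoped LinearAlgebra.Projectivization

theorem disc_ne {r : ℕ} {a b : Fin r → ℤ} (hab : ∀ i, a i * b i = 0 ∧ (a i ≠ 0 ∨ b i ≠ 0)) (i : Fin r) :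
    4 * a i ^ 3 + 27 * b i ^ 2 ≠ 0 := by
  intro h
  obtain ⟨h1, h2⟩ := hab i
  rcases mul_eq_zero.1 h1 with h3 | h3
  · rw [h3] at h h2
    have h4 : (b i) ^ 2 = 0 := by linarith
    rcases h2 with h2 | h2
    · exact h2 rfl
    · exact h2 (pow_eq_zero_iff two_ne_zero |>.1 h4)
  · rw [h3] at h h2
    have h4 : (a i) ^ 3 = 0 := by linarith
    rcases h2 with h2 | h2
    · exact h2 (pow_eq_zero_iff three_ne_zero |>.1 h4)
    · exact h2 rfl

theorem nonempty_idx {r κ : ℕ} (m : ℕ) (d : Fin κ → Fin r → ℕ) (e : Fin κ → ℕ) (hκ : 1 ≤ κ) :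
    Nonempty (Idx m d e) := by
  classical
  let j : Fin κ := ⟨0, hκ⟩
  refine ⟨⟨j, ⟨Pi.single 0 (e j), ?_⟩, fun i => ⟨Pi.single 0 (d j i), ?_⟩⟩⟩
  · rw [Finset.mem_piAntidiag]
    exact ⟨by simp, fun i _ => Finset.mem_univ i⟩
  · rw [Finset.mem_piAntidiag]
    exact ⟨by simp, fun i _ => Finset.mem_univ i⟩

/-- the local density of the family -/
theorem dens_family {R k : Type} [CommRing R] [Field k] [Fintype k] (φ : R →+* k) {r m κ : ℕ}
    {L : Type} (Φ : L → Pol0 R r m) (d' : L → Fin r → ℕ) (e' : L → ℕ)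
    (hΦ : ∀ l, MHomog0 (Φ l) (d' l) (e' l)) (d : Fin κ → Fin r → ℕ) (e : Fin κ → ℕ)
    (he : ∀ j, 2 ≤ e j) (hκ : 1 ≤ κ) (hk : 37 ≤ Nat.card k) (V : Fin r → Fin 3 → k)
    (hV : ∀ i, V i ≠ 0)
    (hcard : (({P : ℙ k (Fin (m + 1) → k) | ∀ l, val0 φ (Φ l) V P.rep = 0}.ncard : ℕ) : ℝ) ≤
      3 / 2 * (Nat.card k : ℝ) ^ κ) :
    (({t : Idx m d e → k | ∃ T : Fin (m + 1) → k, T ≠ 0 ∧ ∀ l : L ⊕ Fin κ,
      valP φ (Sum.elim (fun l => lift0 (Idx m d e) (Φ l)) (gen R m d e) l) V T t = 0}.ncard : ℕ) : ℝ)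
      ≤ (1 - 1 / 25) * (Nat.card k : ℝ) ^ Fintype.card (Idx m d e) := by
  have h := density d e he hκ hk V hV (fun T => ∀ l, val0 φ (Φ l) V T = 0) (by
    intro T u _ hT l
    rw [val0_smul φ (Φ l) (d' l) (e' l) (hΦ l), hT l, mul_zero]) hcard
  refine le_trans (le_of_eq ?_) h
  congr 2
  ext t
  simp only [Set.mem_ofPred_eq]
  refine exists_congr fun T => and_congr_right fun _ => ?_
  constructor
  · intro h1
    refine ⟨fun l => ?_, fun j => ?_⟩
    · have h2 := h1 (Sum.inl l)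
      simp only [Sum.elim_inl] at h2
      rwa [valP_lift0] at h2
    · have h2 := h1 (Sum.inr j)
      simp only [Sum.elim_inr] at h2
      rwa [valP_gen] at h2
  · rintro ⟨h1, h2⟩ l
    rcases l with l | j
    · simp only [Sum.elim_inl]
      rw [valP_lift0]
      exact h1 l
    · simp only [Sum.elim_inr]
      rw [valP_gen]
      exact h2 j

theorem mhomog_family {R : Type} [CommRing R] {r m κ : ℕ}
    {L : Type} (Φ : L → Pol0 R r m) (d' : L → Fin r → ℕ) (e' : L → ℕ)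
    (hΦ : ∀ l, MHomog0 (Φ l) (d' l) (e' l)) (d : Fin κ → Fin r → ℕ) (e : Fin κ → ℕ)
    (l : L ⊕ Fin κ) :
    MHomog (Sum.elim (fun l => lift0 (Idx m d e) (Φ l)) (gen R m d e) l) (Sum.elim d' d l)
      (Sum.elim e' e l) := by
  rcases l with l | j
  · exact mhomog_lift0 (Φ l) (d' l) (e' l) (hΦ l)
  · exact mhomog_gen d e j

theorem ciQ (r m κ : ℕ) (hκ : 1 ≤ κ) (a b : Fin r → ℤ)
    (hab : ∀ i, a i * b i = 0 ∧ (a i ≠ 0 ∨ b i ≠ 0)) {L : Type} (Φ : L → Pol0 ℤ r m)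
    (d' : L → Fin r → ℕ) (e' : L → ℕ) (hΦ : ∀ l, MHomog0 (Φ l) (d' l) (e' l))
    (M p₁ : ℕ) (hM : 0 < M)
    (hpts : ∀ (p : ℕ) [Fact p.Prime], p₁ ≤ p → M ∣ p + 1 →
      ∀ V : Fin r → Fin 3 → ZMod p, (∀ i, Pool.Agent.W659.FD.OnE (a i) (b i) (V i)) →
        (({P : ℙ (ZMod p) (Fin (m + 1) → ZMod p) |
          ∀ l, val0 (Int.castRingHom (ZMod p)) (Φ l) V P.rep = 0}.ncard : ℕ) : ℝ) ≤
          3 / 2 * (p : ℝ) ^ κ)
    (d : Fin κ → Fin r → ℕ) (e : Fin κ → ℕ) (he : ∀ j, 2 ≤ e j) (ε : ℝ) (hε : 0 < ε) :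
    ∃ C : ℝ, ∀ H : ℕ, 1 ≤ H →
      (({c : Idx m d e → ℤ | (∀ s, |c s| ≤ H) ∧ ∃ (V : Fin r → Fin 3 → ℚ) (T : Fin (m + 1) → ℚ),
        (∀ i, Pool.Agent.W659.FD.OnE (a i) (b i) (V i)) ∧ T ≠ 0 ∧
          (∀ l, val0 (Int.castRingHom ℚ) (Φ l) V T = 0) ∧
          ∀ j, form (fun s => (c s : ℚ)) j V T = 0}.ncard : ℕ) : ℝ) ≤
      C * (H : ℝ) ^ ((Fintype.card (Idx m d e) : ℝ) - 1 / 5 + ε) := by
  have hne := nonempty_idx m d e hκ
  obtain ⟨C, hC⟩ := mainQ r m (Idx m d e) a b (12 * M) ((p₁ + 37).factorial) (by omega)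
    (Nat.factorial_pos _) (disc_ne hab) (by
      intro i p hp _ hM'
      exact Pool.Agent.H35R6.DCCNT.cnt p (a i) (b i) hp ((Dvd.intro M rfl).trans hM') (hab i).1)
    (L := L ⊕ Fin κ)
    (Sum.elim (fun l => lift0 (Idx m d e) (Φ l)) (gen ℤ m d e)) (Sum.elim d' d) (Sum.elim e' e)
    (mhomog_family Φ d' e' hΦ d e) (1 / 25) (by norm_num) (by norm_num) (by
      intro p hp hpD hM' V hV
      have hp' : p₁ + 37 < p := by
        by_contra h
        push Not at h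
        exact hpD (Nat.dvd_factorial hp.out.pos h)
      have h1 := hpts p (by omega) ((Dvd.intro_left 12 rfl).trans hM') V hV
      have h2 := dens_family (Int.castRingHom (ZMod p)) Φ d' e' hΦ d e he hκ
        (by rw [Nat.card_zmod]; omega) V (fun i => (hV i).1) (by rwa [Nat.card_zmod])
      rwa [Nat.card_zmod] at h2) ε hε
  refine ⟨C, fun H hH => ?_⟩
  refine le_trans (le_of_eq ?_) (hC H hH)
  congr 2
  ext c
  simp only [Set.mem_ofPred_eq]
  refine and_congr_right fun _ => exists_congr fun V => exists_congr fun T =>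
    and_congr_right fun _ => and_congr_right fun _ => ?_
  constructor
  · rintro ⟨h1, h2⟩ l
    rcases l with l | j
    · simp only [Sum.elim_inl]
      rw [valP_lift0]
      exact h1 l
    · simp only [Sum.elim_inr]
      rw [valP_gen]
      exact h2 j
  · intro h1
    refine ⟨fun l => ?_, fun j => ?_⟩
    · have h2 := h1 (Sum.inl l)
      simp only [Sum.elim_inl] at h2
      rwa [valP_lift0] at h2
    · have h2 := h1 (Sum.inr j)
      simp only [Sum.elim_inr] at h2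
      rwa [valP_gen] at h2

/-- `𝒯 = A × ℙ^κ` -/
theorem ciPQ (r κ : ℕ) (hκ : 1 ≤ κ) (a b : Fin r → ℤ)
    (hab : ∀ i, a i * b i = 0 ∧ (a i ≠ 0 ∨ b i ≠ 0))
    (d : Fin κ → Fin r → ℕ) (e : Fin κ → ℕ) (he : ∀ j, 2 ≤ e j) (ε : ℝ) (hε : 0 < ε) :
    ∃ C : ℝ, ∀ H : ℕ, 1 ≤ H →
      (({c : Idx κ d e → ℤ | (∀ s, |c s| ≤ H) ∧ ∃ (V : Fin r → Fin 3 → ℚ) (T : Fin (κ + 1) → ℚ),
        (∀ i, Pool.Agent.W659.FD.OnE (a i) (b i) (V i)) ∧ T ≠ 0 ∧
          ∀ j, form (fun s => (c s : ℚ)) j V T = 0}.ncard : ℕ) : ℝ) ≤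
      C * (H : ℝ) ^ ((Fintype.card (Idx κ d e) : ℝ) - 1 / 5 + ε) := by
  obtain ⟨C, hC⟩ := ciQ r κ κ hκ a b hab (L := Empty) (fun l => l.elim) (fun l => l.elim)
    (fun l => l.elim) (fun l => l.elim) 1 3 one_pos (by
      intro p hp hp3 _ V hV
      have h1 : {P : ℙ (ZMod p) (Fin (κ + 1) → ZMod p) |
          ∀ l : Empty, val0 (Int.castRingHom (ZMod p)) (l.elim) V P.rep = 0} = Set.univ :=
        Set.eq_univ_of_forall fun P l => l.elim
      rw [h1, Set.ncard_univ]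
      have h2 := density_fun (k := ZMod p) (m := κ) (κ := κ) (by rw [Nat.card_zmod]; exact hp3) rfl
      rwa [Nat.card_zmod] at h2) d e he ε hε
  refine ⟨C, fun H hH => ?_⟩
  refine le_trans (le_of_eq ?_) (hC H hH)
  congr 2
  ext c
  simp only [Set.mem_ofPred_eq]
  refine and_congr_right fun _ => exists_congr fun V => exists_congr fun T =>
    and_congr_right fun _ => and_congr_right fun _ => ?_
  exact ⟨fun h => ⟨fun l => l.elim, h⟩, fun h => h.2⟩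

end Pool.Agent.N89.CI
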