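import Pool.Agent.N89.CI.CIQ
import Pool.Agent.W659.FK.Final

set_option autoImplicit false

/-!
# CI (helper89): rational points of projective families over a product of curves, over number fields
-/

namespace Pool.Agent.N89.CI

open MvPolynomial NumberField Pool.Agent.H901R3.MS WeierstrassCurve Pool.Agent.W659.FD
  Pool.Agent.W659.FK

/-- preimages in `(ℤ/p)^(ι × N)` of subsets of `k^ι` -/
theorem preI (K : Type) [Field K] [NumberField K] (ι : Type) [Fintype ι] (N : ℕ)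
    (ω : Module.Basis (Fin N) ℤ (𝓞 K)) (p : ℕ) [Fact p.Prime] (k : Type) [Field k] [Fintype k]
    (hk : Fintype.card k = p ∨ Fintype.card k = p ^ 2) (φ : 𝓞 K →+* k)
    (hφ : Function.Surjective φ) (Ω : Set (ι → k)) (θ : ℝ)
    (h : ((Ω.ncard : ℕ) : ℝ) ≤ θ * (Fintype.card k : ℝ) ^ Fintype.card ι) :
    ∃ G : Set (ι × Fin N → ZMod p),
      ((G.ncard : ℕ) : ℝ) ≤ θ * (p : ℝ) ^ Fintype.card (ι × Fin N) ∧
      ∀ c : ι × Fin N → ℤ, (fun i => φ (∑ j, c (i, j) • ω j)) ∈ Ω →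
        (fun s => (c s : ZMod p)) ∈ G := by
  classical
  set f : ι ≃ Fin (Fintype.card ι) := Fintype.equivFin ι with hf
  obtain ⟨G, hG1, hG2⟩ := Pool.Agent.W346.FK.main K (Fintype.card ι) N ω p k hk φ hφ
    {s | (fun j => s (f j)) ∈ Ω} θ (by
      refine le_trans (le_of_eq ?_) h
      congr 1
      have h7 : Ω = (fun s : Fin (Fintype.card ι) → k => fun j => s (f j)) ''
          {s | (fun j => s (f j)) ∈ Ω} := by
        ext t
        constructor
        · intro ht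
          refine ⟨fun j => t (f.symm j), ?_, ?_⟩
          · simpa using ht
          · funext j
            simp
        · rintro ⟨s, hs, rfl⟩
          exact hs
      conv_rhs => rw [h7]
      rw [Set.ncard_image_of_injective]
      intro s s' hss
      funext j
      have := congrFun hss (f.symm j)
      simpa using this)
  refine ⟨{c | (fun x : Fin (Fintype.card ι) × Fin N => c (f.symm x.1, x.2)) ∈ G}, ?_, ?_⟩
  · have hc : Fintype.card (ι × Fin N) = Fintype.card (Fin (Fintype.card ι) × Fin N) := by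
      simp
    rw [hc]
    refine le_trans (le_of_eq ?_) hG1
    congr 1
    have h7 : G = (fun (c : ι × Fin N → ZMod p) => fun x : Fin (Fintype.card ι) × Fin N =>
        c (f.symm x.1, x.2)) '' {c | (fun x : Fin (Fintype.card ι) × Fin N =>
          c (f.symm x.1, x.2)) ∈ G} := by
      ext t
      constructor
      · intro ht
        refine ⟨fun x => t (f x.1, x.2), ?_, ?_⟩
        · simpa using ht
        · funext j
          simp
      · rintro ⟨s, hs, rfl⟩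
        exact hs
    conv_rhs => rw [h7]
    rw [Set.ncard_image_of_injective]
    intro s s' hss
    funext x
    have := congrFun hss (f x.1, x.2)
    simpa using this
  · intro c hc
    have h1 := hG2 (fun x => c (f.symm x.1, x.2)) (by
      simpa using hc)
    exact h1

/-- the coefficient vectors of the parameters for which the fibre has a `K`-rational point -/
def FibG {r m N : ℕ} {ι L : Type} (K : Type) [Field K] [NumberField K]
    (ω : Module.Basis (Fin N) ℤ (𝓞 K)) (a b : Fin r → ℤ) (G : L → Pol (𝓞 K) r m ι) (H : ℕ) :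
    Set (ι × Fin N → ℤ) :=
  {c | (∀ s, |c s| ≤ H) ∧ ∃ (V : Fin r → Fin 3 → K) (T : Fin (m + 1) → K),
    (∀ i, Pool.Agent.W659.FD.OnE (a i) (b i) (V i)) ∧ T ≠ 0 ∧
      ∀ l, valP (algebraMap (𝓞 K) K) (G l) V T
        (fun i => ((∑ j, c (i, j) • ω j : 𝓞 K) : K)) = 0}

/-- the sieve inequality over a number field -/
theorem sieveK {r m : ℕ} {ι : Type} [Fintype ι] (a b : Fin r → ℤ)
    (hab : ∀ i, a i * b i = 0 ∧ (a i ≠ 0 ∨ b i ≠ 0))
    (K : Type) [Field K] [NumberField K] (N : ℕ) (ω : Module.Basis (Fin N) ℤ (𝓞 K))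
    {L' : Type} (G' : L' → Pol (𝓞 K) r m ι) (d : L' → Fin r → ℕ) (e : L' → ℕ)
    (hG' : ∀ l, MHomog (G' l) (d l) (e l)) (θ : ℝ) (hθ : 0 ≤ θ) (p₁ : ℕ)
    (hloc : ∀ p : ℕ, p.Prime → p₁ ≤ p → 12 ∣ p + 1 → ∀ (k : Type) [Field k] [Fintype k],
      (Fintype.card k = p ∨ Fintype.card k = p ^ 2) → ∀ φ : 𝓞 K →+* k, Function.Surjective φ →
      ∀ V : Fin r → Fin 3 → k, (∀ i, Pool.Agent.W659.FD.OnE (a i) (b i) (V i)) →
        (({t : ι → k | ∃ T : Fin (m + 1) → k, T ≠ 0 ∧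
          ∀ l, valP φ (G' l) V T t = 0}.ncard : ℕ) : ℝ) ≤
          θ * (Fintype.card k : ℝ) ^ Fintype.card ι) :
    ∃ p₀ R : ℕ, ∀ T : Finset ℕ,
    (∀ p ∈ T, p.Prime ∧ p₀ ≤ p ∧ 12 ∣ p + 1 ∧ GoodP K p) → ∀ L : ℕ, 1 ≤ L →
    (∀ p ∈ T, 2 * (p + 1) ∣ L) → ∀ H : ℕ, ∏ p ∈ T, p ≤ 2 * H + 1 →
    (((FibG K ω a b G' H).ncard : ℕ) : ℝ) ≤
      (2 * (2 * (H : ℝ) + 1)) ^ Fintype.card (ι × Fin N) * ((L : ℝ) ^ R * θ ^ T.card) := by
  classical
  have hRed : RedP := t_R6 t_R1 t_R2 t_R3 t_R4 t_R5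
  have hRep : RepP := t_R7 t_R1
  have hdisc := disc_ne hab
  have hdK : ∀ i, Disc (a i : K) (b i : K) := fun i =>
    disc_of two_ne_zero (by exact_mod_cast hdisc i)
  have h1 : ∀ i, ∃ R : ℕ, ∀ L : ℕ, 1 ≤ L → ∃ A : Finset (Pt (a i : K) (b i : K)),
      A.card ≤ L ^ R ∧ ∀ g : Pt (a i : K) (b i : K), ∃ κ ∈ A, ∃ δ : Pt (a i : K) (b i : K),
        g = κ + L • δ := by
    intro i
    exact t_M2 _ (t_M1K K (a i) (b i) (hdK i))
  choose R hR using h1
  refine ⟨p₁ + 5 + ∑ i, (4 * a i ^ 3 + 27 * b i ^ 2).natAbs + 1, ∑ i, R i, ?_⟩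
  intro T hT L hL hTL H hH
  have hTp : ∀ p ∈ T, p.Prime := fun p hp => (hT p hp).1
  have h2 : ∀ i, ∃ A : Finset (Pt (a i : K) (b i : K)),
      A.card ≤ L ^ (R i) ∧ ∀ g : Pt (a i : K) (b i : K), ∃ κ ∈ A, ∃ δ : Pt (a i : K) (b i : K),
        g = κ + L • δ := fun i => hR i L hL
  choose A hAc hAr using h2
  -- the local data
  have key : ∀ p : ℕ, p ∈ T → ∃ G : (∀ i, Pt (a i : K) (b i : K)) → Set (ι × Fin N → ZMod p),
      (∀ κ, (((G κ).ncard : ℕ) : ℝ) ≤ θ * (p : ℝ) ^ Fintype.card (ι × Fin N)) ∧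
      ∀ (κ δ : ∀ i, Pt (a i : K) (b i : K)) (c : ι × Fin N → ℤ) (T : Fin (m + 1) → K), T ≠ 0 →
        (∀ l, valP (algebraMap (𝓞 K) K) (G' l) (fun i => rep (κ i + L • δ i)) T
          (fun i => ((∑ j, c (i, j) • ω j : 𝓞 K) : K)) = 0) →
          (fun s => (c s : ZMod p)) ∈ G κ := by
    intro p hp
    obtain ⟨hpp, hp0, h12, k, _, _, hcard, φ, hφ⟩ := hT p hp
    have : Fact p.Prime := ⟨hpp⟩
    have : CharP k p := Pool.Agent.W346.FK.charP_of_card p k hcard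
    have hpd : ∀ i, ¬ (p : ℤ) ∣ 4 * a i ^ 3 + 27 * b i ^ 2 := by
      intro i h
      have h5 := Nat.le_of_dvd (Int.natAbs_pos.2 (hdisc i)) (Int.natCast_dvd.1 h)
      have h6 : (4 * a i ^ 3 + 27 * b i ^ 2).natAbs ≤
          ∑ i, (4 * a i ^ 3 + 27 * b i ^ 2).natAbs :=
        Finset.single_le_sum (f := fun i => (4 * a i ^ 3 + 27 * b i ^ 2).natAbs)
          (fun _ _ => Nat.zero_le _) (Finset.mem_univ i)
      omega
    have h2k : (2 : k) ≠ 0 := by
      intro h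
      have h5 : ((2 : ℕ) : k) = 0 := by exact_mod_cast h
      rw [CharP.cast_eq_zero_iff k p] at h5
      have := Nat.le_of_dvd (by norm_num) h5
      omega
    obtain ⟨v, hv⟩ := Pool.Agent.W496.FK.PLQ.main K k φ hφ
    have hdk : ∀ i, Disc (a i : k) (b i : k) := fun i => disc_of h2k (by
      intro h
      exact hpd i ((CharP.intCast_eq_zero_iff k p _).1 h))
    have h1 : ∀ i, ∃ red : Pt (a i : K) (b i : K) →+ Pt (a i : k) (b i : k),
        IsRed v (a i) (b i) red := fun i => hRed K k v (a i) (b i) (hdk i)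
    choose red hred using h1
    have hkill : ∀ i, ∀ P : Pt (a i : k) (b i : k), (2 * (p + 1)) • P = 0 := fun i P =>
      Pool.Agent.W605.FK.main p (a i) (b i) (by omega) (hpd i)
        (Pool.Agent.H35R6.DCCNT.cnt p (a i) (b i) hpp h12 (hab i).1) k hcard P
    have hredL : ∀ i, ∀ κ δ : Pt (a i : K) (b i : K), red i (κ + L • δ) = red i κ := by
      intro i κ δ
      obtain ⟨m, hm⟩ := hTL p hp
      rw [map_add, map_nsmul, hm, mul_comm, mul_smul, hkill i, smul_zero, add_zero]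
    choose G hG1 hG2 using fun κ : (∀ i, Pt (a i : K) (b i : K)) =>
      preI K ι N ω p k hcard φ hφ {t : ι → k | ∃ T : Fin (m + 1) → k, T ≠ 0 ∧
          ∀ l, valP φ (G' l) (fun i => rep (red i (κ i))) T t = 0} θ
        (hloc p hpp (by omega) h12 k hcard φ hφ _ (fun i => onE_rep _))
    refine ⟨G, hG1, ?_⟩
    intro κ δ c T hT0 hz
    apply hG2 κ c
    obtain ⟨T', hT', h7⟩ := local_pt v (algebraMap (𝓞 K) K) φ (fun x => hv x) a b (fun i => red i)
        (fun i P => hRep K k v (a i) (b i) (red i) (hred i) P) G' d e hG'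
        (fun i => κ i + L • δ i) (fun i => ((∑ j, c (i, j) • ω j : 𝓞 K) : K))
        (fun i => (hv _).1) T hT0 hz
    refine ⟨T', hT', fun l => ?_⟩
    have h8 : (fun i => v.r ((∑ j, c (i, j) • ω j : 𝓞 K) : K)) =
        fun i => φ (∑ j, c (i, j) • ω j) := by
      funext i
      exact (hv _).2
    have h9 : (fun i => rep (red i (κ i + L • δ i))) = fun i => rep (red i (κ i)) := by
      funext i
      rw [hredL i]
    have h10 := h7 l
    rw [h8, h9] at h10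
    exact h10
  choose G0 hG1 hG2 using key
  let G : (∀ i, Pt (a i : K) (b i : K)) → (p : ℕ) → Set (ι × Fin N → ZMod p) := fun κ p =>
    {c | ∃ hp : p ∈ T, c ∈ G0 p hp κ}
  have hGeq : ∀ κ (p : ℕ) (hp : p ∈ T), G κ p = G0 p hp κ := by
    intro κ p hp
    ext c
    exact ⟨fun ⟨_, h⟩ => h, fun h => ⟨hp, h⟩⟩
  have hB : ∀ κ, (({c : ι × Fin N → ℤ | c ∈ Box (ι × Fin N) H ∧
      ∀ p ∈ T, (fun s => (c s : ZMod p)) ∈ G κ p}.ncard : ℕ) : ℝ) ≤
      (2 * (2 * (H : ℝ) + 1)) ^ Fintype.card (ι × Fin N) * θ ^ T.card := fun κ =>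
    t_BOX (ι × Fin N) T hTp (G κ) θ hθ (by
      intro p hp
      rw [hGeq κ p hp]
      exact hG1 p hp κ) H hH
  have hsub : FibG K ω a b G' H ⊆ ⋃ κ ∈ Fintype.piFinset A,
      {c : ι × Fin N → ℤ | c ∈ Box (ι × Fin N) H ∧
        ∀ p ∈ T, (fun s => (c s : ZMod p)) ∈ G κ p} := by
    rintro c ⟨hc1, V, T₀, hV, hT₀, hw⟩
    obtain ⟨P, hP⟩ := std_pt (algebraMap (𝓞 K) K) a b
      (fun i V hV => t_PTSK K (a i) (b i) V (hdK i) hV) G' d e hG' _ V hV T₀ hw
    have h3 : ∀ i, ∃ κ ∈ A i, ∃ δ : Pt (a i : K) (b i : K), P i = κ + L • δ := fun i =>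
      hAr i (P i)
    choose κ hκ δ hδ using h3
    rw [Set.mem_iUnion₂]
    refine ⟨κ, Fintype.mem_piFinset.2 hκ, ?_, ?_⟩
    · unfold Box
      rw [Fintype.mem_piFinset]
      intro s
      rw [Finset.mem_Icc]
      exact abs_le.1 (hc1 s)
    intro p hp
    rw [hGeq κ p hp]
    refine hG2 p hp κ δ c T₀ hT₀ fun l => ?_
    have h4 : (fun i => rep (κ i + L • δ i)) = fun i => rep (P i) := by
      funext i
      rw [hδ i]
    rw [h4]
    exact hP l
  have hfin : (⋃ κ ∈ Fintype.piFinset A,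
      {c : ι × Fin N → ℤ | c ∈ Box (ι × Fin N) H ∧
        ∀ p ∈ T, (fun s => (c s : ZMod p)) ∈ G κ p}).Finite := by
    apply Set.Finite.subset (Box (ι × Fin N) H).finite_toSet
    intro c hc
    rw [Set.mem_iUnion₂] at hc
    obtain ⟨_, _, hc, _⟩ := hc
    exact hc
  have hcard : (((Fintype.piFinset A).card : ℕ) : ℝ) ≤ (L : ℝ) ^ (∑ i, R i) := by
    rw [Fintype.card_piFinset]
    push_cast
    rw [← Finset.prod_pow_eq_pow_sum]
    refine Finset.prod_le_prod (fun i _ => by positivity) fun i _ => ?_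
    exact_mod_cast hAc i
  set s₀ := Fintype.card (ι × Fin N) with hs₀
  calc (((FibG K ω a b G' H).ncard : ℕ) : ℝ)
      ≤ (((⋃ κ ∈ Fintype.piFinset A, {c : ι × Fin N → ℤ | c ∈ Box (ι × Fin N) H ∧
          ∀ p ∈ T, (fun s => (c s : ZMod p)) ∈ G κ p}).ncard : ℕ) : ℝ) := by
        exact_mod_cast Set.ncard_le_ncard hsub hfin
    _ ≤ ((∑ κ ∈ Fintype.piFinset A, {c : ι × Fin N → ℤ | c ∈ Box (ι × Fin N) H ∧
          ∀ p ∈ T, (fun s => (c s : ZMod p)) ∈ G κ p}.ncard : ℕ) : ℝ) := by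
        exact_mod_cast Finset.set_ncard_biUnion_le _ _
    _ = ∑ κ ∈ Fintype.piFinset A, (({c : ι × Fin N → ℤ | c ∈ Box (ι × Fin N) H ∧
          ∀ p ∈ T, (fun s => (c s : ZMod p)) ∈ G κ p}.ncard : ℕ) : ℝ) := by
        push_cast
        rfl
    _ ≤ ∑ κ ∈ Fintype.piFinset A, (2 * (2 * (H : ℝ) + 1)) ^ s₀ *
          θ ^ T.card := Finset.sum_le_sum fun κ _ => hB κ
    _ = (((Fintype.piFinset A).card : ℕ) : ℝ) * ((2 * (2 * (H : ℝ) + 1)) ^ s₀ *
          θ ^ T.card) := by rw [Finset.sum_const, nsmul_eq_mul]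
    _ ≤ (L : ℝ) ^ (∑ i, R i) * ((2 * (2 * (H : ℝ) + 1)) ^ s₀ *
          θ ^ T.card) := mul_le_mul_of_nonneg_right hcard (by positivity)
    _ = (2 * (2 * (H : ℝ) + 1)) ^ s₀ * ((L : ℝ) ^ (∑ i, R i) *
          θ ^ T.card) := by ring

end Pool.Agent.N89.CI
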