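import Pool.Agent.N89.CI.MainK

set_option autoImplicit false

/-!
# CI (helper89): almost all complete intersections in a projective family over a product of CM
elliptic curves have no point over the number field `K`
-/

namespace Pool.Agent.N89.CI

open MvPolynomial NumberField Pool.Agent.H901R3.MS WeierstrassCurve Pool.Agent.W659.FD
  Pool.Agent.W659.FK

open scoped LinearAlgebra.Projectivization

theorem pow_bound {θ : ℝ} (h0 : 0 ≤ θ) (h1 : θ ≤ 24 / 25) (n : ℕ) :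
    θ ^ n ≤ (2 / 3 : ℝ) ^ (n / 10) := by
  have h2 : θ ^ n ≤ θ ^ (10 * (n / 10)) :=
    pow_le_pow_of_le_one h0 (by linarith) (Nat.mul_div_le n 10)
  refine h2.trans ?_
  rw [pow_mul]
  apply pow_le_pow_left₀ (by positivity)
  calc θ ^ 10 ≤ (24 / 25 : ℝ) ^ 10 := pow_le_pow_left₀ h0 h1 10
    _ ≤ 2 / 3 := by norm_num

/-- the general principle over number fields -/
theorem mainK {r m : ℕ} {ι : Type} [Fintype ι] (a b : Fin r → ℤ)
    (hab : ∀ i, a i * b i = 0 ∧ (a i ≠ 0 ∨ b i ≠ 0))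
    (K : Type) [Field K] [NumberField K] (N : ℕ) (ω : Module.Basis (Fin N) ℤ (𝓞 K))
    {L' : Type} (G' : L' → Pol (𝓞 K) r m ι) (d : L' → Fin r → ℕ) (e : L' → ℕ)
    (hG' : ∀ l, MHomog (G' l) (d l) (e l)) (θ : ℝ) (hθ : 0 ≤ θ) (hθ1 : θ ≤ 24 / 25) (p₁ : ℕ)
    (hloc : ∀ p : ℕ, p.Prime → p₁ ≤ p → 12 ∣ p + 1 → ∀ (k : Type) [Field k] [Fintype k],
      (Fintype.card k = p ∨ Fintype.card k = p ^ 2) → ∀ φ : 𝓞 K →+* k, Function.Surjective φ →
      ∀ V : Fin r → Fin 3 → k, (∀ i, Pool.Agent.W659.FD.OnE (a i) (b i) (V i)) →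
        (({t : ι → k | ∃ T : Fin (m + 1) → k, T ≠ 0 ∧
          ∀ l, valP φ (G' l) V T t = 0}.ncard : ℕ) : ℝ) ≤
          θ * (Fintype.card k : ℝ) ^ Fintype.card ι) :
    ∃ c : ℝ, 0 < c ∧ ∃ H₀ : ℕ, ∀ H : ℕ, H₀ ≤ H →
    (((FibG K ω a b G' H).ncard : ℕ) : ℝ) ≤
      (2 * (H : ℝ) + 1) ^ (Fintype.card ι * N) *
        Real.exp (-c * (Real.log H / Real.log (Real.log H))) := by
  obtain ⟨p₀, R, hSv⟩ := sieveK a b hab K N ω G' d e hG' θ hθ p₁ hloc
  obtain ⟨M, _, _, hM1, hM3, hM⟩ := _root_.W580.FK.main K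
  obtain ⟨τ, hτ0, hτ1, κ, hκ, Y, hY⟩ := spK M True True (fun _ => hM1) (fun _ => hM3)
  obtain ⟨Y₂, hY₂⟩ := floor_step hτ0 hτ1
  obtain ⟨c, hc, H₀, hH3, hA⟩ := t_ASYK (Fintype.card (ι × Fin N)) R (κ / 40) ((τ + 1) / 2)
    (by positivity) (by linarith) (by linarith)
  set M' : ℕ := p₀ + 20 with hM'
  set N' : ℕ := ⌈(4 * (M' : ℝ) / κ) ^ 2⌉₊ with hN'
  refine ⟨c, hc, max H₀ (4 ^ (max Y (max 3 (max N' Y₂)))), ?_⟩
  intro H hH
  have hH0 : H₀ ≤ H := (le_max_left _ _).trans hH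
  have hH1 : 4 ^ (max Y (max 3 (max N' Y₂))) ≤ H := (le_max_right _ _).trans hH
  have hy0 := W_Z1K.le_floor_of_pow hH1
  have hpow := W_Z1K.pow_le_of_floor H
  set y : ℕ := ⌊Real.log (2 * H + 1) / Real.log 4⌋₊ with hy
  have hyY : Y ≤ y := (le_max_left _ _).trans hy0
  have hy3 : 3 ≤ y := ((le_max_left _ _).trans (le_max_right _ _)).trans hy0
  have hyN : N' ≤ y := (((le_max_left _ _).trans (le_max_right _ _)).trans (le_max_right _ _)).trans
    hy0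
  have hyY2 : Y₂ ≤ y := (((le_max_right _ _).trans (le_max_right _ _)).trans
    (le_max_right _ _)).trans hy0
  classical
  set T : Finset ℕ := (DegP M True True y \ RoughP τ y).filter (fun p => M' ≤ p) with hT
  have hmemT : ∀ p ∈ T, (1 ≤ p ∧ p ≤ y) ∧ (p.Prime ∧ CondP True True p ∧
      Nonempty (𝓞 M →+* ZMod p)) ∧
      (∀ q : ℕ, q.Prime → q ∣ p + 1 → q ≤ ⌊(y : ℝ) ^ τ⌋₊) ∧ M' ≤ p := by
    intro p hp
    rw [hT, Finset.mem_filter, Finset.mem_sdiff] at hp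
    obtain ⟨⟨h1, h3⟩, h2⟩ := hp
    unfold DegP at h1
    rw [Finset.mem_filter, Finset.mem_Icc] at h1
    refine ⟨h1.1, h1.2, ?_, h2⟩
    intro q hq hqp
    by_contra hcon
    apply h3
    unfold RoughP
    rw [Finset.mem_filter, Finset.mem_Icc]
    exact ⟨h1.1, h1.2.1, q, hq, hqp, not_le.1 hcon⟩
  -- cardinality
  have hcard : ((DegP M True True y \ RoughP τ y).card : ℝ) ≤ (T.card : ℝ) + M' := by
    have h1 : DegP M True True y \ RoughP τ y ⊆ T ∪ Finset.range M' := by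
      intro p hp
      rw [Finset.mem_union]
      by_cases hpM : M' ≤ p
      · left
        rw [hT, Finset.mem_filter]
        exact ⟨hp, hpM⟩
      · right
        rw [Finset.mem_range]
        omega
    have h2 := (Finset.card_le_card h1).trans (Finset.card_union_le _ _)
    rw [Finset.card_range] at h2
    exact_mod_cast h2
  have hκy := hY y hyY
  have hyr3 : (3 : ℝ) ≤ (y : ℝ) := by exact_mod_cast hy3
  have hMy : (M' : ℝ) ≤ κ / 2 * (y / Real.log y) := by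
    have h1 := W_Z1K.div_log_ge hyr3
    have h2 : 4 * (M' : ℝ) / κ ≤ Real.sqrt y := by
      apply Real.le_sqrt_of_sq_le
      have h3 : (4 * (M' : ℝ) / κ) ^ 2 ≤ (N' : ℝ) := Nat.le_ceil _
      have h4 : (N' : ℝ) ≤ (y : ℝ) := by exact_mod_cast hyN
      exact h3.trans h4
    have h5 : 4 * (M' : ℝ) ≤ Real.sqrt y * κ := by
      rwa [div_le_iff₀ hκ] at h2
    have h6 : κ / 2 * (Real.sqrt y / 2) ≤ κ / 2 * (y / Real.log y) :=
      mul_le_mul_of_nonneg_left h1 (by positivity)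
    nlinarith
  have hTcard : κ / 2 * (y / Real.log y) ≤ (T.card : ℝ) := by
    have h1 : κ * (y / Real.log y) = κ / 2 * (y / Real.log y) + κ / 2 * (y / Real.log y) := by ring
    linarith
  have hT20 : (20 : ℝ) ≤ T.card := by
    have h1 : (20 : ℝ) ≤ M' := by
      rw [hM']
      push_cast
      have : (0 : ℝ) ≤ p₀ := Nat.cast_nonneg _
      linarith
    linarith
  have hTdiv : κ / 40 * (y / Real.log y) ≤ ((T.card / 10 : ℕ) : ℝ) := by
    have h1 : T.card < 10 * (T.card / 10) + 10 := by omega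
    have h2 : (T.card : ℝ) < 10 * ((T.card / 10 : ℕ) : ℝ) + 10 := by exact_mod_cast h1
    have h3 : κ / 40 * (y / Real.log y) = (κ / 2 * (y / Real.log y)) / 20 := by ring
    rw [h3]
    linarith
  -- the integer L
  obtain ⟨L, hL1, hL2, hL3⟩ := t_LY y ⌊(y : ℝ) ^ τ⌋₊
  have hL2' : ((2 * L : ℕ) : ℝ) ≤ ((y : ℝ) + 1) ^ ⌊(y : ℝ) ^ ((τ + 1) / 2)⌋₊ := by
    have h1 : (L : ℝ) ≤ ((y : ℝ) + 1) ^ ⌊(y : ℝ) ^ τ⌋₊ := by exact_mod_cast hL2
    have h2 : ((y : ℝ) + 1) ^ (⌊(y : ℝ) ^ τ⌋₊ + 1) ≤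
        ((y : ℝ) + 1) ^ ⌊(y : ℝ) ^ ((τ + 1) / 2)⌋₊ :=
      pow_le_pow_right₀ (by linarith) (hY₂ y hyY2)
    refine le_trans ?_ h2
    rw [pow_succ]
    push_cast
    have h3 : (0 : ℝ) ≤ ((y : ℝ) + 1) ^ ⌊(y : ℝ) ^ τ⌋₊ := by positivity
    nlinarith
  have hdiv : ∀ p ∈ T, 2 * (p + 1) ∣ 2 * L := by
    intro p hp
    obtain ⟨h1, h2, h3, h4⟩ := hmemT p hp
    exact Nat.mul_dvd_mul_left 2 (hL3 (p + 1) (by omega) (by omega) h3)
  have hcond : ∀ p ∈ T, p.Prime ∧ p₀ ≤ p ∧ 12 ∣ p + 1 ∧ GoodP K p := by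
    intro p hpT
    obtain ⟨h1, ⟨h2, h3, h6⟩, h4, h5⟩ := hmemT p hpT
    have : Fact p.Prime := ⟨h2⟩
    have h7 := h3.1 trivial
    have h8 := h3.2 trivial
    exact ⟨h2, by omega, by omega, hM p h7 h6⟩
  have hprod : ∏ p ∈ T, p ≤ 2 * H + 1 := by
    have h1 : ∏ p ∈ T, p ≤ primorial y := by
      unfold primorial
      apply Finset.prod_le_prod_of_subset_of_one_le'
      · intro p hp
        obtain ⟨h1, h2, h3, h4⟩ := hmemT p hp
        rw [Finset.mem_filter, Finset.mem_range]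
        exact ⟨by omega, h2.1⟩
      · intro p hp _
        exact (Finset.mem_filter.1 hp).2.one_lt.le
    exact (h1.trans (primorial_le_four_pow y)).trans hpow
  have hfin := hSv T hcond (2 * L) (by omega) hdiv H hprod
  have hfin1 : (2 * (2 * (H : ℝ) + 1)) ^ Fintype.card (ι × Fin N) *
      (((2 * L : ℕ) : ℝ) ^ R * θ ^ T.card) ≤
      (2 * (2 * (H : ℝ) + 1)) ^ Fintype.card (ι × Fin N) *
      (((2 * L : ℕ) : ℝ) ^ R * (2 / 3) ^ (T.card / 10)) := by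
    apply mul_le_mul_of_nonneg_left _ (by positivity)
    exact mul_le_mul_of_nonneg_left (pow_bound hθ hθ1 _) (by positivity)
  have hfin2 := (hfin.trans hfin1).trans (hA H hH0 y (T.card / 10) (2 * L) hy hTdiv hL2')
  rwa [Fintype.card_prod, Fintype.card_fin] at hfin2

/-- the general complete intersection over the number field `K`: points -/
theorem ciK (r m κ : ℕ) (hκ : 1 ≤ κ) (a b : Fin r → ℤ)
    (hab : ∀ i, a i * b i = 0 ∧ (a i ≠ 0 ∨ b i ≠ 0))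
    (K : Type) [Field K] [NumberField K] (N : ℕ) (ω : Module.Basis (Fin N) ℤ (𝓞 K))
    {L : Type} (Φ : L → Pol0 (𝓞 K) r m)
    (d' : L → Fin r → ℕ) (e' : L → ℕ) (hΦ : ∀ l, MHomog0 (Φ l) (d' l) (e' l))
    (p₁ : ℕ)
    (hpts : ∀ (k : Type) [Field k] [Fintype k] (p : ℕ), p.Prime → p₁ ≤ p →
      (Fintype.card k = p ∨ Fintype.card k = p ^ 2) → ∀ φ : 𝓞 K →+* k, Function.Surjective φ →
      ∀ V : Fin r → Fin 3 → k, (∀ i, Pool.Agent.W659.FD.OnE (a i) (b i) (V i)) →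
        (({P : ℙ k (Fin (m + 1) → k) | ∀ l, val0 φ (Φ l) V P.rep = 0}.ncard : ℕ) : ℝ) ≤
          3 / 2 * (Fintype.card k : ℝ) ^ κ)
    (d : Fin κ → Fin r → ℕ) (e : Fin κ → ℕ) (he : ∀ j, 2 ≤ e j) :
    ∃ c₀ : ℝ, 0 < c₀ ∧ ∃ H₀ : ℕ, ∀ H : ℕ, H₀ ≤ H →
      (({c : Idx m d e × Fin N → ℤ | (∀ s, |c s| ≤ H) ∧
        ∃ (V : Fin r → Fin 3 → K) (T : Fin (m + 1) → K),
        (∀ i, Pool.Agent.W659.FD.OnE (a i) (b i) (V i)) ∧ T ≠ 0 ∧
          (∀ l, val0 (algebraMap (𝓞 K) K) (Φ l) V T = 0) ∧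
          ∀ j, form (fun s => ((∑ i, c (s, i) • ω i : 𝓞 K) : K)) j V T = 0}.ncard : ℕ) : ℝ) ≤
      (2 * (H : ℝ) + 1) ^ (Fintype.card (Idx m d e) * N) *
        Real.exp (-c₀ * (Real.log H / Real.log (Real.log H))) := by
  obtain ⟨c₀, hc₀, H₀, hH⟩ := mainK (ι := Idx m d e) a b hab K N ω
    (L' := L ⊕ Fin κ)
    (Sum.elim (fun l => lift0 (Idx m d e) (Φ l)) (gen (𝓞 K) m d e)) (Sum.elim d' d)
    (Sum.elim e' e) (mhomog_family Φ d' e' hΦ d e) (1 - 1 / 25) (by norm_num) (by norm_num)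
    (p₁ + 37) (by
      intro p hp hp1 _ k _ _ hk φ hφ V hV
      have h1 := hpts k p hp (by omega) hk φ hφ V hV
      have h3 : 37 ≤ Nat.card k := by
        rw [Nat.card_eq_fintype_card]
        rcases hk with h | h
        · rw [h]; omega
        · rw [h]; nlinarith
      have h2 := dens_family φ Φ d' e' hΦ d e he hκ h3 V (fun i => (hV i).1)
        (by rwa [Nat.card_eq_fintype_card])
      rwa [Nat.card_eq_fintype_card] at h2)
  refine ⟨c₀, hc₀, H₀, fun H hH' => ?_⟩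
  refine le_trans (le_of_eq ?_) (hH H hH')
  congr 2
  ext c
  unfold FibG
  simp only [Set.mem_ofPred_eq]
  refine and_congr_right fun _ => exists_congr fun V => exists_congr fun T =>
    and_congr_right fun _ => and_congr_right fun _ => ?_
  constructor
  · rintro ⟨h1, h2⟩ l
    rcases l with l | j
    · simp only [Sum.elim_inl]
      rw [valP_lift0]
      exact h1 l
    · simp only [Sum.elim_inr]
      rw [valP_gen]
      exact h2 j
  · intro h1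
    refine ⟨fun l => ?_, fun j => ?_⟩
    · have h2 := h1 (Sum.inl l)
      simp only [Sum.elim_inl] at h2
      rwa [valP_lift0] at h2
    · have h2 := h1 (Sum.inr j)
      simp only [Sum.elim_inr] at h2
      rwa [valP_gen] at h2

/-- `𝒯 = A × ℙ^κ` -/
theorem ciPK (r κ : ℕ) (hκ : 1 ≤ κ) (a b : Fin r → ℤ)
    (hab : ∀ i, a i * b i = 0 ∧ (a i ≠ 0 ∨ b i ≠ 0))
    (K : Type) [Field K] [NumberField K] (N : ℕ) (ω : Module.Basis (Fin N) ℤ (𝓞 K))
    (d : Fin κ → Fin r → ℕ) (e : Fin κ → ℕ) (he : ∀ j, 2 ≤ e j) :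
    ∃ c₀ : ℝ, 0 < c₀ ∧ ∃ H₀ : ℕ, ∀ H : ℕ, H₀ ≤ H →
      (({c : Idx κ d e × Fin N → ℤ | (∀ s, |c s| ≤ H) ∧
        ∃ (V : Fin r → Fin 3 → K) (T : Fin (κ + 1) → K),
        (∀ i, Pool.Agent.W659.FD.OnE (a i) (b i) (V i)) ∧ T ≠ 0 ∧
          ∀ j, form (fun s => ((∑ i, c (s, i) • ω i : 𝓞 K) : K)) j V T = 0}.ncard : ℕ) : ℝ) ≤
      (2 * (H : ℝ) + 1) ^ (Fintype.card (Idx κ d e) * N) *
        Real.exp (-c₀ * (Real.log H / Real.log (Real.log H))) := by
  obtain ⟨c₀, hc₀, H₀, hH⟩ := ciK r κ κ hκ a b hab K N ω (L := Empty) (fun l => l.elim)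
    (fun l => l.elim) (fun l => l.elim) (fun l => l.elim) 3 (by
      intro k _ _ p hp hp3 hk φ hφ V hV
      have h1 : {P : ℙ k (Fin (κ + 1) → k) |
          ∀ l : Empty, val0 φ (l.elim) V P.rep = 0} = Set.univ :=
        Set.eq_univ_of_forall fun P l => l.elim
      rw [h1, Set.ncard_univ]
      have h3 : 3 ≤ Nat.card k := by
        rw [Nat.card_eq_fintype_card]
        rcases hk with h | h
        · rw [h]; omega
        · rw [h]; nlinarith
      have h2 := density_fun (k := k) (m := κ) (κ := κ) h3 rfl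
      rwa [Nat.card_eq_fintype_card (α := k)] at h2) d e he
  refine ⟨c₀, hc₀, H₀, fun H hH' => ?_⟩
  refine le_trans (le_of_eq ?_) (hH H hH')
  congr 2
  ext c
  simp only [Set.mem_ofPred_eq]
  refine and_congr_right fun _ => exists_congr fun V => exists_congr fun T =>
    and_congr_right fun _ => and_congr_right fun _ => ?_
  exact ⟨fun h => ⟨fun l => l.elim, h⟩, fun h => h.2⟩

end Pool.Agent.N89.CI
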