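import Mathlib

set_option autoImplicit false

/-!
# CI (helper89): the general complete intersection of given multidegrees
-/

namespace Pool.Agent.N89.CI

open Finset MvPolynomial

/-- the exponents of the monomials of degree `e` in `T_0, …, T_m` -/
abbrev MonT (m e : ℕ) : Type := ↥(Finset.piAntidiag (univ : Finset (Fin (m + 1))) e)

/-- the exponents of the monomials of multidegree `d` in the coordinates of the `r` plane cubics -/
abbrev MonV {r : ℕ} (d : Fin r → ℕ) : Type :=
  (i : Fin r) → ↥(Finset.piAntidiag (univ : Finset (Fin 3)) (d i))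

/-- the index type of the coefficients of `κ` forms of multidegrees `(d j, e j)` -/
abbrev Idx {r κ : ℕ} (m : ℕ) (d : Fin κ → Fin r → ℕ) (e : Fin κ → ℕ) : Type :=
  Σ j : Fin κ, (MonT m (e j) × MonV (d j))

/-- the value of the form number `j` with the coefficients `c` -/
noncomputable def form {A : Type} [CommRing A] {r κ m : ℕ} {d : Fin κ → Fin r → ℕ} {e : Fin κ → ℕ}
    (c : Idx m d e → A) (j : Fin κ) (V : Fin r → Fin 3 → A) (T : Fin (m + 1) → A) : A :=
  ∑ s : MonT m (e j) × MonV (d j), c ⟨j, s⟩ *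
    ((∏ i, ∏ x, V i x ^ (s.2 i).1 x) * ∏ x, T x ^ s.1.1 x)

theorem sum_monT {m e : ℕ} (α : MonT m e) : ∑ x, α.1 x = e := by
  have h := α.2
  rw [Finset.mem_piAntidiag] at h
  exact h.1

/-- a product of linear forms -/
theorem exists_form {k : Type} [Field k] {m j : ℕ} (T : Fin j → Fin (m + 1) → k)
    (hT : ∀ i, T i ≠ 0) (hne : ∀ i i', i ≠ i' → ∀ u : k, T i' ≠ fun x => u * T i x)
    (e : ℕ) (he : j ≤ e + 1) (i₀ : Fin j) :
    ∃ G : MvPolynomial (Fin (m + 1)) k, G.IsHomogeneous e ∧ eval (T i₀) G = 1 ∧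
      ∀ i, i ≠ i₀ → eval (T i) G = 0 := by
  classical
  -- linear forms
  have h1 : ∀ i, i ≠ i₀ → ∃ ℓ : MvPolynomial (Fin (m + 1)) k, ℓ.IsHomogeneous 1 ∧
      eval (T i) ℓ = 0 ∧ eval (T i₀) ℓ ≠ 0 := by
    intro i hi
    by_contra hcon
    push Not at hcon
    obtain ⟨s, hs⟩ : ∃ s, T i s ≠ 0 := by
      by_contra h
      push Not at h
      exact hT i (funext h)
    refine hne i i₀ hi (T i₀ s / T i s) ?_
    funext x
    have h2 := hcon (C (T i s) * X x - C (T i x) * X s)
      (((isHomogeneous_C_mul_X _ _)).sub (isHomogeneous_C_mul_X _ _)) (by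
        simp only [map_sub, map_mul, eval_C, eval_X]
        ring)
    simp only [map_sub, map_mul, eval_C, eval_X] at h2
    field_simp
    linear_combination h2
  choose! ℓ hℓ using h1
  obtain ⟨s, hs⟩ : ∃ s, T i₀ s ≠ 0 := by
    by_contra h
    push Not at h
    exact hT i₀ (funext h)
  set P : MvPolynomial (Fin (m + 1)) k := ∏ i ∈ univ.erase i₀, ℓ i with hP
  have hPh : P.IsHomogeneous (j - 1) := by
    have h2 := IsHomogeneous.prod (univ.erase i₀) ℓ (fun _ => 1) (fun i hi =>
      (hℓ i (Finset.ne_of_mem_erase hi)).1)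
    rw [Finset.sum_const, Finset.card_erase_of_mem (mem_univ _), Finset.card_univ,
      Fintype.card_fin, smul_eq_mul, mul_one] at h2
    exact h2
  have hP0 : eval (T i₀) P ≠ 0 := by
    rw [hP, map_prod, Finset.prod_ne_zero_iff]
    intro i hi
    exact (hℓ i (Finset.ne_of_mem_erase hi)).2.2
  have hPi : ∀ i, i ≠ i₀ → eval (T i) P = 0 := by
    intro i hi
    rw [hP, map_prod]
    exact Finset.prod_eq_zero (Finset.mem_erase.2 ⟨hi, mem_univ _⟩) (hℓ i hi).2.1
  set u : k := eval (T i₀) P * T i₀ s ^ (e - (j - 1)) with hu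
  have hu0 : u ≠ 0 := mul_ne_zero hP0 (pow_ne_zero _ hs)
  refine ⟨C u⁻¹ * (P * X s ^ (e - (j - 1))), ?_, ?_, ?_⟩
  · have h3 := (hPh.mul ((isHomogeneous_X k s).pow (e - (j - 1)))).C_mul u⁻¹
    rw [one_mul] at h3
    have h4 : j - 1 + (e - (j - 1)) = e := by omega
    rwa [h4] at h3
  · simp only [map_mul, eval_C, map_pow, eval_X]
    rw [← hu]
    field_simp
  · intro i hi
    simp only [map_mul, hPi i hi]
    ring

/-- the value of a homogeneous polynomial -/
theorem eval_homog {k : Type} [Field k] {m e : ℕ} (G : MvPolynomial (Fin (m + 1)) k)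
    (hG : G.IsHomogeneous e) (T : Fin (m + 1) → k) :
    eval T G = ∑ α : MonT m e, coeff (Finsupp.equivFunOnFinite.symm α.1) G * ∏ x, T x ^ α.1 x := by
  classical
  rw [eval_eq']
  set F : (Fin (m + 1) → ℕ) → k := fun α =>
    coeff (Finsupp.equivFunOnFinite.symm α) G * ∏ x, T x ^ α x with hF
  have h0 : ∑ α : MonT m e, coeff (Finsupp.equivFunOnFinite.symm α.1) G * ∏ x, T x ^ α.1 x =
      ∑ α ∈ Finset.piAntidiag (univ : Finset (Fin (m + 1))) e, F α :=
    Finset.sum_coe_sort (Finset.piAntidiag (univ : Finset (Fin (m + 1))) e) F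
  have h1 : ∑ α ∈ G.support.map Finsupp.equivFunOnFinite.toEmbedding, F α =
      ∑ α ∈ Finset.piAntidiag (univ : Finset (Fin (m + 1))) e, F α := by
    apply Finset.sum_subset
    · intro α hα
      rw [Finset.mem_map] at hα
      obtain ⟨x, hx, rfl⟩ := hα
      rw [Finset.mem_piAntidiag]
      refine ⟨?_, fun i _ => mem_univ i⟩
      have h2 := hG (mem_support_iff.1 hx)
      rw [Finsupp.weight_apply, Finsupp.sum_fintype _ _ (fun _ => by simp)] at h2
      simpa using h2
    · intro α _ hα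
      have h2 : coeff (Finsupp.equivFunOnFinite.symm α) G = 0 := by
        by_contra h3
        apply hα
        rw [Finset.mem_map]
        exact ⟨_, mem_support_iff.2 h3, by simp⟩
      rw [hF]
      simp only
      rw [h2, zero_mul]
  rw [h0, ← h1, Finset.sum_map]
  refine Finset.sum_congr rfl fun x _ => ?_
  simp [hF]

/-- for any values there are coefficients such that the forms have these values at `j ≤ e + 1`
different points -/
theorem exists_coeff {k : Type} [Field k] {r κ m : ℕ} (d : Fin κ → Fin r → ℕ) (e : Fin κ → ℕ)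
    (V : Fin r → Fin 3 → k) (hV : ∀ i, V i ≠ 0) {n : ℕ} (T : Fin n → Fin (m + 1) → k)
    (hT : ∀ i, T i ≠ 0) (hne : ∀ i i', i ≠ i' → ∀ u : k, T i' ≠ fun x => u * T i x)
    (he : ∀ j, n ≤ e j + 1) (y : Fin n → Fin κ → k) :
    ∃ c : Idx m d e → k, ∀ i j, form c j V (T i) = y i j := by
  classical
  -- a monomial which does not vanish at `V`
  have h1 : ∀ j, ∃ μ : MonV (d j), ∏ i, ∏ x, V i x ^ (μ i).1 x ≠ 0 := by
    intro j
    have h2 : ∀ i, ∃ x, V i x ≠ 0 := by
      intro i
      by_contra h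
      push Not at h
      exact hV i (funext h)
    choose x hx using h2
    refine ⟨fun i => ⟨Pi.single (x i) (d j i), ?_⟩, ?_⟩
    · rw [Finset.mem_piAntidiag]
      refine ⟨?_, fun i _ => mem_univ i⟩
      simp
    · rw [Finset.prod_ne_zero_iff]
      intro i _
      rw [Finset.prod_ne_zero_iff]
      intro s _
      by_cases hs : s = x i
      · subst hs
        exact pow_ne_zero _ (hx i)
      · simp [Pi.single_eq_of_ne hs]
  choose μ hμ using h1
  choose G hG1 hG2 hG3 using fun j i₀ => exists_form T hT hne (e j) (he j) i₀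
  refine ⟨fun s => if s.2.2 = μ s.1 then
    (∏ i, ∏ x, V i x ^ (μ s.1 i).1 x)⁻¹ * ∑ i₀, y i₀ s.1 *
      coeff (Finsupp.equivFunOnFinite.symm s.2.1.1) (G s.1 i₀) else 0, ?_⟩
  intro i j
  unfold form
  rw [Fintype.sum_prod_type]
  simp only
  have h2 : ∀ α : MonT m (e j), ∑ ν : MonV (d j), (if ν = μ j then
      (∏ i, ∏ x, V i x ^ (μ j i).1 x)⁻¹ * ∑ i₀, y i₀ j *
        coeff (Finsupp.equivFunOnFinite.symm α.1) (G j i₀) else 0) *
        ((∏ i, ∏ x, V i x ^ (ν i).1 x) * ∏ x, T i x ^ α.1 x) =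
      ∑ i₀, y i₀ j * (coeff (Finsupp.equivFunOnFinite.symm α.1) (G j i₀) *
        ∏ x, T i x ^ α.1 x) := by
    intro α
    rw [Finset.sum_eq_single (μ j)]
    · rw [if_pos rfl]
      have h3 := hμ j
      rw [mul_mul_mul_comm, inv_mul_cancel₀ h3, one_mul, Finset.sum_mul]
      refine Finset.sum_congr rfl fun i₀ _ => ?_
      ring
    · intro ν _ hν
      rw [if_neg hν, zero_mul]
    · intro h
      exact absurd (mem_univ _) h
  rw [Finset.sum_congr rfl fun α _ => h2 α, Finset.sum_comm]
  have h3 : ∀ i₀, ∑ α : MonT m (e j), y i₀ j * (coeff (Finsupp.equivFunOnFinite.symm α.1)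
      (G j i₀) * ∏ x, T i x ^ α.1 x) = y i₀ j * (if i₀ = i then 1 else 0) := by
    intro i₀
    rw [← Finset.mul_sum, ← eval_homog (G j i₀) (hG1 j i₀) (T i)]
    congr 1
    split_ifs with h
    · rw [← h]
      exact hG2 j i₀
    · exact hG3 j i₀ i (fun h' => h h'.symm)
  rw [Finset.sum_congr rfl fun i₀ _ => h3 i₀]
  simp

theorem form_add {k : Type} [CommRing k] {r κ m : ℕ} {d : Fin κ → Fin r → ℕ} {e : Fin κ → ℕ}
    (c c' : Idx m d e → k) (j : Fin κ) (V : Fin r → Fin 3 → k) (T : Fin (m + 1) → k) :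
    form (c + c') j V T = form c j V T + form c' j V T := by
  unfold form
  rw [← Finset.sum_add_distrib]
  refine Finset.sum_congr rfl fun s _ => ?_
  rw [Pi.add_apply, add_mul]

/-- the number of the coefficient vectors for which the forms vanish at `n` different points -/
theorem card_vanish {k : Type} [Field k] [Fintype k] {r κ m : ℕ} (d : Fin κ → Fin r → ℕ)
    (e : Fin κ → ℕ) (V : Fin r → Fin 3 → k) (hV : ∀ i, V i ≠ 0) {n : ℕ}
    (T : Fin n → Fin (m + 1) → k)
    (hT : ∀ i, T i ≠ 0) (hne : ∀ i i', i ≠ i' → ∀ u : k, T i' ≠ fun x => u * T i x)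
    (he : ∀ j, n ≤ e j + 1) :
    Nat.card {c : Idx m d e → k // ∀ i j, form c j V (T i) = 0} *
      (Nat.card k) ^ (n * κ) = Nat.card (Idx m d e → k) := by
  classical
  let f : (Idx m d e → k) →+ (Fin n → Fin κ → k) :=
    { toFun := fun c i j => form c j V (T i)
      map_zero' := by
        funext i j
        simp [form]
      map_add' := by
        intro c c'
        funext i j
        exact form_add c c' j V (T i) }
  have hf : Function.Surjective f := by
    intro y
    obtain ⟨c, hc⟩ := exists_coeff d e V hV T hT hne he y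
    exact ⟨c, funext fun i => funext fun j => hc i j⟩
  have h1 := AddSubgroup.card_eq_card_quotient_mul_card_addSubgroup f.ker
  have h2 : Nat.card ((Idx m d e → k) ⧸ f.ker) = Nat.card (Fin n → Fin κ → k) :=
    Nat.card_congr (QuotientAddGroup.quotientKerEquivOfSurjective f hf).toEquiv
  have h3 : Nat.card f.ker = Nat.card {c : Idx m d e → k // ∀ i j, form c j V (T i) = 0} := by
    refine Nat.card_congr (Equiv.subtypeEquivRight fun c => ?_)
    rw [AddMonoidHom.mem_ker]
    constructor
    · intro h i j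
      exact congrFun (congrFun h i) j
    · intro h
      exact funext fun i => funext fun j => h i j
  rw [h1, h2, h3, mul_comm]
  congr 1
  rw [Nat.card_fun, Nat.card_fun, ← pow_mul]
  simp [mul_comm]

end Pool.Agent.N89.CI
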