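import Pool.Agent.H901R3.MS.Stm
import Pool.Agent.W659.FD.Geo2
import Pool.Agent.N89.CI.Forms

set_option autoImplicit false

/-!
# CI (helper89): reduction of rational points of projective families over a product of curves
-/

namespace Pool.Agent.N89.CI

open MvPolynomial Pool.Agent.H901R3.MS WeierstrassCurve

/-- polynomials with coefficients in `R` in the coordinates `V i j` (`i : Fin r`, `j : Fin 3`), in the
homogeneous coordinates `T x` (`x : Fin (m + 1)`) and in the parameters `t s` -/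
abbrev Pol (R : Type) [CommRing R] (r m : ℕ) (ι : Type) : Type :=
  MvPolynomial ((Fin r × Fin 3) ⊕ (Fin (m + 1) ⊕ ι)) R

/-- the value at `V, T, t` -/
noncomputable def valP {R A : Type} [CommRing R] [CommRing A] (φ : R →+* A) {r m : ℕ} {ι : Type}
    (F : Pol R r m ι) (V : Fin r → Fin 3 → A) (T : Fin (m + 1) → A) (t : ι → A) : A :=
  eval₂ φ (Sum.elim (fun ij => V ij.1 ij.2) (Sum.elim T t)) F

/-- homogeneous of degree `d i` in the coordinates of the `i`-th curve and of degree `e` in the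
coordinates `T` -/
def MHomog {R : Type} [CommRing R] {r m : ℕ} {ι : Type} (F : Pol R r m ι) (d : Fin r → ℕ) (e : ℕ) :
    Prop :=
  ∀ x ∈ F.support, (∀ i, ∑ j, x (Sum.inl (i, j)) = d i) ∧ ∑ s, x (Sum.inr (Sum.inl s)) = e

section
variable {R A : Type} [CommRing R] [CommRing A] {r m : ℕ} {ι : Type}

theorem valP_map {B : Type} [CommRing B] (φ : R →+* A) (ψ : A →+* B) (F : Pol R r m ι)
    (V : Fin r → Fin 3 → A) (T : Fin (m + 1) → A) (t : ι → A) :
    ψ (valP φ F V T t) =
      valP (ψ.comp φ) F (fun i j => ψ (V i j)) (fun s => ψ (T s)) (fun s => ψ (t s)) := by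
  unfold valP
  rw [eval₂_comp_left]
  congr 1
  funext x
  rcases x with ⟨i, j⟩ | s | s <;> rfl

theorem valP_expand [Fintype ι] (φ : R →+* A) (F : Pol R r m ι) (V : Fin r → Fin 3 → A)
    (T : Fin (m + 1) → A) (t : ι → A) : valP φ F V T t =
      ∑ x ∈ F.support, φ (coeff x F) * ((∏ i, ∏ j, V i j ^ x (Sum.inl (i, j))) *
        ((∏ s, T s ^ x (Sum.inr (Sum.inl s))) * ∏ s, t s ^ x (Sum.inr (Sum.inr s)))) := by
  unfold valP
  rw [eval₂_eq']
  refine Finset.sum_congr rfl fun x _ => ?_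
  rw [Fintype.prod_sum_type, Fintype.prod_sum_type, Fintype.prod_prod_type]
  simp

theorem valP_scale [Fintype ι] (φ : R →+* A) (F : Pol R r m ι) (d : Fin r → ℕ) (e : ℕ)
    (hF : MHomog F d e) (V : Fin r → Fin 3 → A) (T : Fin (m + 1) → A) (t : ι → A) (u : Fin r → A)
    (τ : A) :
    valP φ F (fun i j => u i * V i j) (fun s => τ * T s) t =
      ((∏ i, u i ^ d i) * τ ^ e) * valP φ F V T t := by
  rw [valP_expand, valP_expand, Finset.mul_sum]
  refine Finset.sum_congr rfl fun x hx => ?_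
  have h1 : ∏ i, ∏ j, (u i * V i j) ^ x (Sum.inl (i, j)) =
      (∏ i, u i ^ d i) * ∏ i, ∏ j, V i j ^ x (Sum.inl (i, j)) := by
    rw [← Finset.prod_mul_distrib]
    refine Finset.prod_congr rfl fun i _ => ?_
    rw [← (hF x hx).1 i, ← Finset.prod_pow_eq_pow_sum, ← Finset.prod_mul_distrib]
    refine Finset.prod_congr rfl fun j _ => ?_
    rw [mul_pow]
  have h2 : ∏ s, (τ * T s) ^ x (Sum.inr (Sum.inl s)) =
      τ ^ e * ∏ s, T s ^ x (Sum.inr (Sum.inl s)) := by
    rw [← (hF x hx).2, ← Finset.prod_pow_eq_pow_sum, ← Finset.prod_mul_distrib]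
    refine Finset.prod_congr rfl fun j _ => ?_
    rw [mul_pow]
  rw [h1, h2]
  ring

end

/-- a nonzero vector has a multiple with integral coordinates one of which is `1` -/
theorem exists_primitive {K k : Type} [Field K] [Field k] (v : Place K k) {n : ℕ} (T : Fin n → K)
    (hT : T ≠ 0) : ∃ s₀, T s₀ ≠ 0 ∧ ∀ s, (T s₀)⁻¹ * T s ∈ v.A := by
  classical
  have h : ∀ S : Finset (Fin n), (∃ s ∈ S, T s ≠ 0) →
      ∃ s₀, T s₀ ≠ 0 ∧ ∀ s ∈ S, (T s₀)⁻¹ * T s ∈ v.A := by
    intro S
    induction S using Finset.induction_on with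
    | empty => rintro ⟨s, hs, _⟩; simp at hs
    | insert a S ha ih =>
      intro hex
      by_cases hS : ∃ s ∈ S, T s ≠ 0
      · obtain ⟨s₀, h0, h1⟩ := ih hS
        by_cases h2 : (T s₀)⁻¹ * T a ∈ v.A
        · refine ⟨s₀, h0, ?_⟩
          intro s hs
          rw [Finset.mem_insert] at hs
          rcases hs with rfl | hs
          · exact h2
          · exact h1 s hs
        · have h3 := v.inv_mem_of_notMem h2
          have ha0 : T a ≠ 0 := by
            intro h
            apply h2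
            rw [h, mul_zero]
            exact v.A.zero_mem
          refine ⟨a, ha0, ?_⟩
          intro s hs
          rw [Finset.mem_insert] at hs
          rcases hs with rfl | hs
          · rw [inv_mul_cancel₀ ha0]
            exact v.A.one_mem
          · have h4 := v.A.mul_mem h3 (h1 s hs)
            have h5 : ((T s₀)⁻¹ * T a)⁻¹ * ((T s₀)⁻¹ * T s) = (T a)⁻¹ * T s := by
              field_simp
            rwa [h5] at h4
      · obtain ⟨s, hs, hs0⟩ := hex
        rw [Finset.mem_insert] at hs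
        rcases hs with rfl | hs
        · refine ⟨s, hs0, ?_⟩
          intro s' hs'
          rw [Finset.mem_insert] at hs'
          rcases hs' with rfl | hs'
          · rw [inv_mul_cancel₀ hs0]
            exact v.A.one_mem
          · have h6 : T s' = 0 := by
              by_contra h
              exact hS ⟨s', hs', h⟩
            rw [h6, mul_zero]
            exact v.A.zero_mem
        · exact absurd ⟨s, hs, hs0⟩ hS
  obtain ⟨s, hs⟩ : ∃ s, T s ≠ 0 := by
    by_contra hcon
    push Not at hcon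
    exact hT (funext hcon)
  obtain ⟨s₀, h0, h1⟩ := h Finset.univ ⟨s, Finset.mem_univ _, hs⟩
  exact ⟨s₀, h0, fun s => h1 s (Finset.mem_univ _)⟩

/-- reduction of a point of the fibre over `P` -/
theorem local_pt {R K k : Type} [CommRing R] [Field K] [Field k] (v : Place K k) (ι₀ : R →+* K)
    (φ : R →+* k) (hφ : ∀ x, ι₀ x ∈ v.A ∧ v.r (ι₀ x) = φ x) {r m : ℕ} {ι : Type} [Fintype ι]
    (a b : Fin r → ℤ) (red : ∀ i, Pt (a i : K) (b i : K) → Pt (a i : k) (b i : k))
    (hrep : ∀ i, ∀ P : Pt (a i : K) (b i : K), ∃ u : K, u ≠ 0 ∧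
      ∀ j, u * rep P j ∈ v.A ∧ v.r (u * rep P j) = rep (red i P) j)
    {L : Type} (G : L → Pol R r m ι) (d : L → Fin r → ℕ) (e : L → ℕ)
    (hG : ∀ l, MHomog (G l) (d l) (e l))
    (P : ∀ i, Pt (a i : K) (b i : K)) (t : ι → K) (ht : ∀ s, t s ∈ v.A) (T : Fin (m + 1) → K)
    (hT : T ≠ 0) (h0 : ∀ l, valP ι₀ (G l) (fun i => rep (P i)) T t = 0) :
    ∃ T' : Fin (m + 1) → k, T' ≠ 0 ∧
      ∀ l, valP φ (G l) (fun i => rep (red i (P i))) T' (fun s => v.r (t s)) = 0 := by
  choose u hu0 hu1 using fun i => hrep i (P i)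
  obtain ⟨s₀, hs0, hs1⟩ := exists_primitive v T hT
  set V' : Fin r → Fin 3 → v.A := fun i j => ⟨u i * rep (P i) j, (hu1 i j).1⟩ with hV'
  set T' : Fin (m + 1) → v.A := fun s => ⟨(T s₀)⁻¹ * T s, hs1 s⟩ with hT'
  set t' : ι → v.A := fun s => ⟨t s, ht s⟩ with ht'
  set ψ : R →+* v.A := ι₀.codRestrict v.A (fun x => (hφ x).1) with hψ
  have hψ1 : v.A.subtype.comp ψ = ι₀ := by
    ext x
    rfl
  have hψ2 : v.ρ.comp ψ = φ := by
    ext x
    have h1 := (hφ x).2
    rw [v.r_of (hφ x).1] at h1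
    exact h1
  refine ⟨fun s => v.ρ (T' s), ?_, ?_⟩
  · intro h
    have h1 := congrFun h s₀
    have h2 : T' s₀ = 1 := by
      apply Subtype.ext
      exact inv_mul_cancel₀ hs0
    simp only [h2, map_one, Pi.zero_apply] at h1
    exact one_ne_zero h1
  · intro l
    have h1 : valP ψ (G l) V' T' t' = 0 := by
      apply Subtype.ext
      have h2 := valP_map ψ v.A.subtype (G l) V' T' t'
      have h3 : (v.A.subtype (valP ψ (G l) V' T' t')) = ((valP ψ (G l) V' T' t' : v.A) : K) := rfl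
      rw [h3, hψ1] at h2
      rw [h2]
      have h4 := valP_scale ι₀ (G l) (d l) (e l) (hG l) (fun i => rep (P i)) T t u (T s₀)⁻¹
      rw [h0 l, mul_zero] at h4
      exact h4
    have h2 := valP_map ψ v.ρ (G l) V' T' t'
    rw [h1, map_zero, hψ2] at h2
    rw [h2]
    congr 1
    · funext i j
      have h3 := (hu1 i j).2
      rw [v.r_of (hu1 i j).1] at h3
      exact h3.symm
    · funext s
      exact v.r_of (ht s)

/-- a rational point lies over a point with standard coordinates -/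
theorem std_pt {R K : Type} [CommRing R] [Field K] (ι₀ : R →+* K) {r m : ℕ} {ι : Type} [Fintype ι]
    (a b : Fin r → ℤ)
    (hPTS : ∀ i, ∀ V : Fin 3 → K, Pool.Agent.W659.FD.OnE (a i) (b i) V →
      ∃ (P : Pt (a i : K) (b i : K)) (u : K), u ≠ 0 ∧ ∀ j, V j = u * rep P j)
    {L : Type} (G : L → Pol R r m ι) (d : L → Fin r → ℕ) (e : L → ℕ)
    (hG : ∀ l, MHomog (G l) (d l) (e l)) (t : ι → K) (V : Fin r → Fin 3 → K)
    (hV : ∀ i, Pool.Agent.W659.FD.OnE (a i) (b i) (V i)) (T : Fin (m + 1) → K)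
    (h0 : ∀ l, valP ι₀ (G l) V T t = 0) :
    ∃ P : ∀ i, Pt (a i : K) (b i : K), ∀ l, valP ι₀ (G l) (fun i => rep (P i)) T t = 0 := by
  choose P u hu0 hu1 using fun i => hPTS i (V i) (hV i)
  refine ⟨P, fun l => ?_⟩
  have h2 : V = fun i j => u i * rep (P i) j := by
    funext i j
    exact hu1 i j
  have h3 := valP_scale ι₀ (G l) (d l) (e l) (hG l) (fun i => rep (P i)) T t u 1
  simp only [one_mul, one_pow, mul_one] at h3
  rw [← h2, h0 l] at h3
  have h4 : (∏ i, u i ^ d l i) ≠ 0 := by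
    rw [Finset.prod_ne_zero_iff]
    intro i _
    exact pow_ne_zero _ (hu0 i)
  rcases mul_eq_zero.1 h3.symm with h5 | h5
  · exact absurd h5 h4
  · exact h5

end Pool.Agent.N89.CI
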