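import Pool.Agent.N89.CI.Geo
import Pool.Agent.W659.FD.Main

set_option autoImplicit false

/-!
# CI (helper89): rational points of projective families over a product of curves, over `ℚ`
-/

namespace Pool.Agent.N89.CI

open MvPolynomial Pool.Agent.H901R3.MS WeierstrassCurve Pool.Agent.W659.FD

/-- the abstract sieve theorem for an arbitrary finite index type -/
theorem absI (G : Type) [AddCommGroup G] [AddGroup.FG G] (ι : Type) [Fintype ι] [Nonempty ι]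
    (M D : ℕ) (hM : 0 < M) (hD : 0 < D) (Ω : (p : ℕ) → G → Set (ι → ZMod p)) (η : ℝ)
    (hη : 0 < η) (hη1 : η ≤ 1)
    (h : ∀ p : ℕ, p.Prime → 2 < p → ¬ p ∣ D → M ∣ p + 1 →
      (∀ P P' R : G, P = P' + (p + 1) • R → Ω p P = Ω p P') ∧
      (∀ P, ((Ω p P).ncard : ℝ) ≤ (1 - η) * (p : ℝ) ^ Fintype.card ι)) (ε : ℝ) (hε : 0 < ε) :
    ∃ C : ℝ, ∀ H : ℕ, 1 ≤ H →
      (({t : ι → ℤ | (∀ j, |t j| ≤ H) ∧ ∃ P : G, ∀ p : ℕ, p.Prime → 2 < p → ¬ p ∣ D →
        M ∣ p + 1 → (fun j => (t j : ZMod p)) ∈ Ω p P}.ncard : ℕ) : ℝ) ≤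
      C * (H : ℝ) ^ ((Fintype.card ι : ℝ) - 1 / 5 + ε) := by
  classical
  set f : ι ≃ Fin (Fintype.card ι) := Fintype.equivFin ι with hf
  obtain ⟨C, hC⟩ := absg G (Fintype.card ι) Fintype.card_pos M D hM hD
    (fun p P => {s | (fun j => s (f j)) ∈ Ω p P}) η hη hη1 (by
      intro p h1 h2 h3 h4
      obtain ⟨h5, h6⟩ := h p h1 h2 h3 h4
      refine ⟨fun P P' R hP => ?_, fun P => ?_⟩
      · rw [h5 P P' R hP]
      · refine le_trans (le_of_eq ?_) (h6 P)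
        congr 1
        have h7 : Ω p P = (fun s : Fin (Fintype.card ι) → ZMod p => fun j => s (f j)) ''
            {s | (fun j => s (f j)) ∈ Ω p P} := by
          ext t
          constructor
          · intro ht
            refine ⟨fun j => t (f.symm j), ?_, ?_⟩
            · simpa using ht
            · funext j
              simp
          · rintro ⟨s, hs, rfl⟩
            exact hs
        conv_rhs => rw [h7]
        rw [Set.ncard_image_of_injective]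
        intro s s' hss
        funext j
        have := congrFun hss (f.symm j)
        simpa using this) ε hε
  refine ⟨C, fun H hH => ?_⟩
  refine le_trans (le_of_eq ?_) (hC H hH)
  congr 1
  rw [← Nat.card_coe_set_eq]
  refine Nat.card_congr ⟨fun t => ⟨fun j => t.1 (f.symm j), fun j => t.2.1 _, ?_⟩,
    fun t => ⟨fun j => t.1 (f j), fun j => t.2.1 _, ?_⟩, ?_, ?_⟩
  · obtain ⟨P, hP⟩ := t.2.2
    refine ⟨P, fun p h1 h2 h3 h4 => ?_⟩
    have := hP p h1 h2 h3 h4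
    simpa using this
  · obtain ⟨P, hP⟩ := t.2.2
    exact ⟨P, fun p h1 h2 h3 h4 => hP p h1 h2 h3 h4⟩
  · intro t
    apply Subtype.ext
    funext j
    simp
  · intro t
    apply Subtype.ext
    funext j
    simp

/-- the general principle over `ℚ` -/
theorem mainQ (r m : ℕ) (ι : Type) [Fintype ι] [Nonempty ι] (a b : Fin r → ℤ) (M D : ℕ)
    (hM : 0 < M) (hD : 0 < D) (hdisc : ∀ i, 4 * a i ^ 3 + 27 * b i ^ 2 ≠ 0)
    (hss : ∀ i, ∀ p : ℕ, p.Prime → ¬ p ∣ D → M ∣ p + 1 →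
      Nat.card {z : ZMod p × ZMod p // z.2 ^ 2 = z.1 ^ 3 + a i * z.1 + b i} = p)
    {L : Type} (G : L → Pol ℤ r m ι) (d : L → Fin r → ℕ) (e : L → ℕ)
    (hG : ∀ l, MHomog (G l) (d l) (e l)) (η : ℝ) (hη : 0 < η) (hη1 : η ≤ 1)
    (hloc : ∀ (p : ℕ) [Fact p.Prime], ¬ p ∣ D → M ∣ p + 1 →
      ∀ V : Fin r → Fin 3 → ZMod p, (∀ i, Pool.Agent.W659.FD.OnE (a i) (b i) (V i)) →
        (({t : ι → ZMod p | ∃ T : Fin (m + 1) → ZMod p, T ≠ 0 ∧
          ∀ l, valP (Int.castRingHom (ZMod p)) (G l) V T t = 0}.ncard : ℕ) : ℝ) ≤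
          (1 - η) * (p : ℝ) ^ Fintype.card ι) (ε : ℝ) (hε : 0 < ε) :
    ∃ C : ℝ, ∀ H : ℕ, 1 ≤ H →
      (({t : ι → ℤ | (∀ s, |t s| ≤ H) ∧ ∃ (V : Fin r → Fin 3 → ℚ) (T : Fin (m + 1) → ℚ),
        (∀ i, Pool.Agent.W659.FD.OnE (a i) (b i) (V i)) ∧ T ≠ 0 ∧
          ∀ l, valP (Int.castRingHom ℚ) (G l) V T (fun s => (t s : ℚ)) = 0}.ncard : ℕ) : ℝ) ≤
      C * (H : ℝ) ^ ((Fintype.card ι : ℝ) - 1 / 5 + ε) := by
  classical
  have hRed : RedP := t_R6 t_R1 t_R2 t_R3 t_R4 t_R5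
  have hRep : RepP := t_R7 t_R1
  have hdQ : ∀ i, Disc (a i : ℚ) (b i : ℚ) := fun i =>
    disc_of (by norm_num) (by exact_mod_cast hdisc i)
  have hfg : ∀ i, Module.Finite ℤ (Pt (a i : ℚ) (b i : ℚ)) := fun i =>
    Module.Finite.iff_addGroup_fg.2 (t_M1 (a i) (b i) (hdQ i))
  haveI hFG : AddGroup.FG ((i : Fin r) → Pt (a i : ℚ) (b i : ℚ)) :=
    Module.Finite.iff_addGroup_fg.1 inferInstance
  set D' : ℕ := D * (∏ i, (4 * a i ^ 3 + 27 * b i ^ 2).natAbs) with hD'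
  have hD'pos : 0 < D' := by
    refine Nat.mul_pos hD (Nat.pos_of_ne_zero ?_)
    rw [Finset.prod_ne_zero_iff]
    intro i _
    exact Int.natAbs_ne_zero.2 (hdisc i)
  have key : ∀ p : ℕ, p.Prime → 2 < p → ¬ p ∣ D' → M ∣ p + 1 →
      ∃ Ωp : (∀ i, Pt (a i : ℚ) (b i : ℚ)) → Set (ι → ZMod p),
        (∀ P P' R : (∀ i, Pt (a i : ℚ) (b i : ℚ)), P = P' + (p + 1) • R → Ωp P = Ωp P') ∧
        (∀ P, ((Ωp P).ncard : ℝ) ≤ (1 - η) * (p : ℝ) ^ Fintype.card ι) ∧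
        (∀ (P : ∀ i, Pt (a i : ℚ) (b i : ℚ)) (t : ι → ℤ) (T : Fin (m + 1) → ℚ), T ≠ 0 →
          (∀ l, valP (Int.castRingHom ℚ) (G l) (fun i => rep (P i)) T (fun s => (t s : ℚ)) = 0) →
            (fun k => (t k : ZMod p)) ∈ Ωp P) := by
    intro p hp h2 hpD hMp
    haveI : Fact p.Prime := ⟨hp⟩
    have hpD1 : ¬ p ∣ D := fun h => hpD (h.mul_right _)
    have hpd : ∀ i, ¬ (p : ℤ) ∣ 4 * a i ^ 3 + 27 * b i ^ 2 := by
      intro i h
      apply hpD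
      apply Dvd.dvd.mul_left
      exact (Int.natCast_dvd.1 h).trans (Finset.dvd_prod_of_mem _ (Finset.mem_univ i))
    have h2p : (2 : ZMod p) ≠ 0 := by
      intro h
      have h3 : ((2 : ℕ) : ZMod p) = 0 := by exact_mod_cast h
      rw [ZMod.natCast_eq_zero_iff] at h3
      have := Nat.le_of_dvd (by norm_num) h3
      omega
    obtain ⟨v⟩ := t_PL p
    have hdp : ∀ i, Disc (a i : ZMod p) (b i : ZMod p) := fun i => disc_of h2p (by
      intro h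
      exact hpd i ((ZMod.intCast_zmod_eq_zero_iff_dvd _ p).1 h))
    have h1 : ∀ i, ∃ red : Pt (a i : ℚ) (b i : ℚ) →+ Pt (a i : ZMod p) (b i : ZMod p),
        IsRed v (a i) (b i) red := fun i => hRed ℚ (ZMod p) v (a i) (b i) (hdp i)
    choose red hred using h1
    have hkill : ∀ i, ∀ P : Pt (a i : ZMod p) (b i : ZMod p), (p + 1) • P = 0 := by
      intro i P
      have h5 : ((p : ℤ) + 1) • P = 0 :=
        Pool.Agent.H477R5.DC.exp p (a i) (b i) h2 (hpd i) (hss i p hp hpD1 hMp) P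
      rw [← natCast_zsmul]
      push_cast
      exact h5
    refine ⟨fun P => {t : ι → ZMod p | ∃ T : Fin (m + 1) → ZMod p, T ≠ 0 ∧
          ∀ l, valP (Int.castRingHom (ZMod p)) (G l) (fun i => rep (red i (P i))) T t = 0},
        ?_, ?_, ?_⟩
    · intro P P' R hP
      have h5 : (fun i => rep (red i (P i))) = fun i => rep (red i (P' i)) := by
        funext i
        have hPi : P i = P' i + (p + 1) • R i := by rw [hP]; rfl
        rw [hPi, map_add, map_nsmul, hkill i, add_zero]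
      simp only
      rw [h5]
    · intro P
      exact hloc p hpD1 hMp _ (fun i => onE_rep _)
    · intro P t T hT h0
      obtain ⟨T', hT', h3⟩ := local_pt v (Int.castRingHom ℚ) (Int.castRingHom (ZMod p))
        (fun x => ⟨v.int_mem x, v.r_int x⟩) a b (fun i => red i)
        (fun i P => hRep ℚ (ZMod p) v (a i) (b i) (red i) (hred i) P) G d e hG P
        (fun s => (t s : ℚ)) (fun s => v.int_mem (t s)) T hT h0
      refine ⟨T', hT', fun l => ?_⟩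
      have h4 := h3 l
      have h5 : (fun s => v.r ((t s : ℤ) : ℚ)) = fun s => (t s : ZMod p) := by
        funext s
        exact v.r_int (t s)
      rwa [h5] at h4
  choose Ω0 hΩ1 hΩ2 hΩ3 using key
  set Ω : (p : ℕ) → (∀ i, Pt (a i : ℚ) (b i : ℚ)) → Set (ι → ZMod p) := fun p P =>
    {t | ∃ (h1 : p.Prime) (h2 : 2 < p) (h3 : ¬ p ∣ D') (h4 : M ∣ p + 1), t ∈ Ω0 p h1 h2 h3 h4 P}
    with hΩ
  have hΩeq : ∀ (p : ℕ) (h1 : p.Prime) (h2 : 2 < p) (h3 : ¬ p ∣ D') (h4 : M ∣ p + 1) P,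
      Ω p P = Ω0 p h1 h2 h3 h4 P := by
    intro p h1 h2 h3 h4 P
    ext t
    constructor
    · rintro ⟨_, _, _, _, h⟩
      exact h
    · intro h
      exact ⟨h1, h2, h3, h4, h⟩
  obtain ⟨C, hC⟩ := absI (∀ i, Pt (a i : ℚ) (b i : ℚ)) ι M D' hM hD'pos Ω η hη hη1 (by
      intro p h1 h2 h3 h4
      constructor
      · intro P P' R hP
        rw [hΩeq p h1 h2 h3 h4, hΩeq p h1 h2 h3 h4]
        exact hΩ1 p h1 h2 h3 h4 P P' R hP
      · intro P
        rw [hΩeq p h1 h2 h3 h4]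
        exact hΩ2 p h1 h2 h3 h4 P) ε hε
  refine ⟨C, fun H hH => ?_⟩
  refine le_trans ?_ (hC H hH)
  have hfin : {t : ι → ℤ | (∀ j, |t j| ≤ (H : ℤ)) ∧ ∃ P : (∀ i, Pt (a i : ℚ) (b i : ℚ)),
      ∀ p : ℕ, p.Prime → 2 < p → ¬ p ∣ D' → M ∣ p + 1 → (fun j => (t j : ZMod p)) ∈ Ω p P}.Finite := by
    have : {c : ι → ℤ | ∀ j, c j ∈ Set.Icc (-(H : ℤ)) (H : ℤ)}.Finite :=
      Set.Finite.pi' fun _ => Set.finite_Icc _ _
    apply Set.Finite.subset this
    rintro c ⟨hc, -⟩ j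
    exact ⟨(abs_le.1 (hc j)).1, (abs_le.1 (hc j)).2⟩
  refine Nat.cast_le.2 (Set.ncard_le_ncard ?_ hfin)
  rintro t ⟨ht, V, T, hV, hT, h0⟩
  obtain ⟨P, hP⟩ := std_pt (Int.castRingHom ℚ) a b
    (fun i V hV => t_PTS (a i) (b i) V (hdQ i) hV) G d e hG (fun s => (t s : ℚ)) V hV T h0
  refine ⟨ht, P, ?_⟩
  intro p h1 h2 h3 h4
  rw [hΩeq p h1 h2 h3 h4]
  exact hΩ3 p h1 h2 h3 h4 P t T hT hP

end Pool.Agent.N89.CI
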